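import Mathlib
import Pool.Agent.H94.IC.Targets3

open MeasureTheory Set Filter Topology Metric
open scoped ENNReal NNReal ContDiff RealInnerProductSpace

namespace Pool.Agent.H39.IC

open Pool.Agent.H94.IC

theorem pd_contDiffOn {O : Set E} (hO : IsOpen O) {f : E → ℝ} (hf : ContDiffOn ℝ ∞ f O) (k : Fin 3) :
    ContDiffOn ℝ ∞ (pd k f) O := by
  have h := hf.fderiv_of_isOpen (m := ∞) hO (by norm_num)
  exact h.clm_apply contDiffOn_const

theorem pd_sub {O : Set E} (hO : IsOpen O) {f g : E → ℝ} (hf : ContDiffOn ℝ ∞ f O)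
    (hg : ContDiffOn ℝ ∞ g O) (k : Fin 3) {x : E} (hx : x ∈ O) :
    pd k (fun y => f y - g y) x = pd k f x - pd k g x := by
  unfold pd
  have h1 := (hf.contDiffAt (hO.mem_nhds hx)).differentiableAt (by simp)
  have h2 := (hg.contDiffAt (hO.mem_nhds hx)).differentiableAt (by simp)
  rw [fderiv_fun_sub h1 h2]
  rfl

theorem pd_congr {O : Set E} (hO : IsOpen O) {f g : E → ℝ} (h : ∀ x ∈ O, f x = g x) (k : Fin 3)
    {x : E} (hx : x ∈ O) : pd k f x = pd k g x := by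
  unfold pd
  have : f =ᶠ[𝓝 x] g := by
    filter_upwards [hO.mem_nhds hx] with y hy using h y hy
  rw [this.fderiv_eq]

theorem harm_sub {O : Set E} (hO : IsOpen O) {f g : E → ℝ} (hf : Harm O f) (hg : Harm O g) :
    Harm O (fun x => f x - g x) := by
  refine ⟨hf.1.sub hg.1, fun x hx => ?_⟩
  have h1 : ∀ k : Fin 3, pd k (pd k (fun y => f y - g y)) x = pd k (pd k f) x - pd k (pd k g) x := by
    intro k
    rw [pd_congr hO (f := pd k (fun y => f y - g y)) (g := fun y => pd k f y - pd k g y)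
      (fun y hy => pd_sub hO hf.1 hg.1 k hy) k hx]
    exact pd_sub hO (pd_contDiffOn hO hf.1 k) (pd_contDiffOn hO hg.1 k) k hx
  simp only [h1, Finset.sum_sub_distrib]
  rw [hf.2 x hx, hg.2 x hx, sub_zero]

theorem gr_sub {f g : E → ℝ} {x : E} (hf : DifferentiableAt ℝ f x) (hg : DifferentiableAt ℝ g x) :
    gr (fun y => f y - g y) x = gr f x - gr g x := by
  unfold gr gradient
  rw [fderiv_fun_sub hf hg, map_sub]

theorem gr_not_diff {f : E → ℝ} {x : E} (hf : ¬ DifferentiableAt ℝ f x) : gr f x = 0 := by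
  unfold gr gradient
  rw [fderiv_zero_of_not_differentiableAt hf, map_zero]

theorem integrable_inner_of_memLp {μ : Measure E} {f g : E → E} (hf : MemLp f 2 μ)
    (hg : MemLp g 2 μ) : Integrable (fun x => ⟪f x, g x⟫) μ := by
  have h1 : Integrable (fun x => ‖f x‖ * ‖g x‖) μ := hf.norm.integrable_mul hg.norm
  refine h1.mono' (hf.1.inner hg.1) (ae_of_all _ fun x => ?_)
  exact norm_inner_le_norm _ _

/-- the difference of a solution and a noise function has zero Neumann data -/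
theorem zn_sub (hHSM : T_HSM) {Ω S : Set E} {σ : Measure E} {ν : E → E} (hD : Dom Ω)
    (hsurf : IsSurf Ω σ ν) (hS : IsCompact S) (hSΩ : S ⊆ Ω) {h τ U : E → ℝ} {GU : E → E}
    (hN : Noise Ω σ ν U GU) (hh : Harm (Ω \ S) h)
    (hsol : Sol Ω S σ ν (fun x => ⟪GU x, ν x⟫) h (gr h) τ) :
    ZN Ω S σ ν (fun x => h x - U x) (fun x => τ x - U x) := by
  have hO : IsOpen (Ω \ S) := hD.op.sdiff hS.isClosed
  have hUO : Harm (Ω \ S) U := ⟨hN.harm.1.mono sdiff_subset, fun x hx => hN.harm.2 x hx.1⟩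
  have hUd : ∀ x ∈ Ω, DifferentiableAt ℝ U x := fun x hx =>
    (hN.harm.1.contDiffAt (hD.op.mem_nhds hx)).differentiableAt (by simp)
  obtain ⟨hadd, hmul, -, -, -⟩ := hHSM Ω S σ ν hD.op hD.bdd hsurf hS hSΩ
  have hUhs := hN.hs S hS hSΩ
  have hcomb := hadd _ _ _ _ _ _ hsol.h (hmul _ _ _ (-1) hUhs)
  have hgr : ∀ x ∈ Ω, DifferentiableAt ℝ h x →
      gr (fun y => h y - U y) x = gr h x + (-1 : ℝ) • GU x := by
    intro x hx hd
    rw [gr_sub hd (hUd x hx), hN.grad x hx]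
    module
  have hgr2 : ∀ x ∈ Ω \ S, gr (fun y => h y - U y) x = gr h x + (-1 : ℝ) • GU x := fun x hx =>
    hgr x hx.1 ((hh.1.contDiffAt (hO.mem_nhds hx)).differentiableAt (by simp))
  have hgr3 : ∀ x ∈ Ω, ¬ DifferentiableAt ℝ h x → gr (fun y => h y - U y) x = 0 := by
    intro x hx hd
    apply gr_not_diff
    intro hc
    apply hd
    have := hc.add (hUd x hx)
    refine this.congr_of_eventuallyEq (Filter.Eventually.of_forall fun y => ?_)
    simp
  refine ⟨harm_sub hO hh hUO, ⟨?_, ?_, ?_, ?_⟩, ?_⟩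
  · exact hcomb.u2.ae_eq (ae_of_all _ fun x => by ring_nf)
  · have hm := measurableSet_of_differentiableAt ℝ h
    refine (hcomb.F2.indicator hm).ae_eq ?_
    filter_upwards [ae_restrict_mem hD.op.measurableSet] with x hx
    by_cases hd : DifferentiableAt ℝ h x
    · rw [indicator_of_mem (by exact hd), hgr x hx hd]
    · rw [indicator_of_notMem (by exact hd), hgr3 x hx hd]
  · exact hcomb.t2.ae_eq (ae_of_all _ fun x => by ring_nf)
  · intro X hX hXc hXS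
    have h1 := hcomb.tr X hX hXc hXS
    have h2 : ∫ x in Ω, ((h x - U x) * dv X x + ⟪gr (fun y => h y - U y) x, X x⟫) =
        ∫ x in Ω, ((h x + -1 * U x) * dv X x + ⟪gr h x + (-1 : ℝ) • GU x, X x⟫) := by
      refine setIntegral_congr_fun hD.op.measurableSet fun x hx => ?_
      by_cases hxS : x ∈ S
      · have : X x = 0 := by
          by_contra h0
          exact Set.disjoint_left.1 hXS (subset_tsupport X h0) hxS
        rw [this, inner_zero_right, inner_zero_right]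
        ring
      · rw [hgr2 x ⟨hx, hxS⟩]
        ring
    rw [h2, h1]
    refine integral_congr_ae (ae_of_all _ fun x => ?_)
    dsimp only
    ring
  · intro φ G κ hφ hW
    obtain ⟨W, hWo, hSW, hW0⟩ := hW
    have h1 := hsol.weak φ G κ hφ
    have h2 := hN.green S φ G κ hS hSΩ hφ ⟨W, hWo, hSW, hW0⟩
    have h3 : ∫ x in Ω, ⟪gr (fun y => h y - U y) x, G x⟫ =
        ∫ x in Ω, (⟪gr h x, G x⟫ - ⟪GU x, G x⟫) := by
      refine setIntegral_congr_fun hD.op.measurableSet fun x hx => ?_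
      by_cases hxS : x ∈ S
      · rw [(hW0 x (hSW hxS)).2]
        simp
      · rw [hgr2 x ⟨hx, hxS⟩, inner_add_left, inner_smul_left]
        simp
        ring
    rw [h3, integral_sub, h1, h2]
    · rw [sub_eq_zero]
      exact integral_congr_ae (ae_of_all _ fun x => by dsimp only; ring)
    · exact integrable_inner_of_memLp hsol.h.F2 hφ.F2
    · exact integrable_inner_of_memLp hUhs.F2 hφ.F2

theorem ss_pos (j : ℕ) : 0 < ss j := by unfold ss; positivity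
theorem ee_pos (j : ℕ) : 0 < ee j := by unfold ee; positivity

theorem ss_le (j : ℕ) (hj : 3 ≤ j) : ss j ≤ (2:ℝ)⁻¹ ^ j * ee j ^ 2 := by
  unfold ss ee
  rw [← pow_mul, ← pow_add]
  refine pow_le_pow_of_le_one (by norm_num) (by norm_num) ?_
  nlinarith

theorem sqrt_ss_le (j : ℕ) (hj : 3 ≤ j) : Real.sqrt (ss j) ≤ Real.sqrt ((2:ℝ)⁻¹ ^ j) * ee j := by
  calc Real.sqrt (ss j) ≤ Real.sqrt ((2:ℝ)⁻¹ ^ j * ee j ^ 2) := Real.sqrt_le_sqrt (ss_le j hj)
    _ = _ := by rw [Real.sqrt_mul (by positivity), Real.sqrt_sq (ee_pos j).le]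

theorem ss_tendsto : Tendsto ss atTop (𝓝 0) := by
  have h : Tendsto (fun j : ℕ => (2:ℝ)⁻¹ ^ j) atTop (𝓝 0) :=
    tendsto_pow_atTop_nhds_zero_of_lt_one (by norm_num) (by norm_num)
  refine squeeze_zero (fun j => (ss_pos j).le) (fun j => ?_) h
  unfold ss
  exact pow_le_pow_of_le_one (by norm_num) (by norm_num) (Nat.le_self_pow (by norm_num) j)

theorem frontier_nonempty {Ω : Set E} (hD : Dom Ω) : (frontier Ω).Nonempty := by
  rw [nonempty_iff_ne_empty]
  intro h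
  have h1 : IsClopen Ω := isClopen_iff_frontier_eq_empty.2 h
  rcases isClopen_iff.1 h1 with h2 | h2
  · exact hD.conn.nonempty.ne_empty h2
  · have := hD.bdd
    rw [h2] at this
    exact noncompact_univ E (Metric.isCompact_of_isClosed_isBounded isClosed_univ this)

theorem exists_dist_pos {Ω S : Set E} (hD : Dom Ω) (hS : IsCompact S) (hSΩ : S ⊆ Ω) :
    ∃ d : ℝ, 0 < d ∧ ∀ x ∈ S, d ≤ infDist x (frontier Ω) := by
  rcases S.eq_empty_or_nonempty with rfl | hne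
  · exact ⟨1, one_pos, by simp⟩
  · obtain ⟨x, hx, hmin⟩ := hS.exists_isMinOn hne (continuous_infDist_pt (frontier Ω)).continuousOn
    refine ⟨infDist x (frontier Ω), ?_, fun y hy => hmin hy⟩
    rw [← isClosed_frontier.notMem_iff_infDist_pos (frontier_nonempty hD)]
    intro h
    exact (hD.op.inter_frontier_eq ▸ (⟨hSΩ hx, h⟩ : x ∈ Ω ∩ frontier Ω) : x ∈ (∅ : Set E))

theorem bar (hHSM : T_HSM) (hREL : T_REL) (hIND : T_IND) (hNSE : T_NSE) : T_BAR := by
  intro Ω σ ν hD hsurf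
  obtain ⟨n, C, s0, hn, hs0, hC, hrel⟩ := hREL Ω hD
  obtain ⟨F, c0, hc0, hF, hind⟩ := hIND n hn
  have hn1 : (0:ℝ) < n + 1 := by positivity
  have hn0 : (0:ℝ) < n := by exact_mod_cast hn
  obtain ⟨M, U, GU, hnoise, j0, hj0⟩ := hNSE Ω σ ν F (c0 / (4 * (n + 1))) hD hsurf hF (by positivity)
  refine ⟨M, fun i x => ⟪GU i x, ν x⟫, fun i => (hnoise i).prof, n, hn, ?_⟩
  intro S h τ hS hSΩ hharm hsol ε hε
  have hzn : ∀ i, ZN Ω S σ ν (fun x => h i x - U i x) (fun x => τ i x - U i x) := fun i =>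
    zn_sub hHSM hD hsurf hS hSΩ (hnoise i) (hharm i) (hsol i)
  obtain ⟨d, hd, hdS⟩ := exists_dist_pos hD hS hSΩ
  have hρ : 0 < min s0 (d / 2) := lt_min hs0 (by positivity)
  set ρ : ℝ := min s0 (d / 2) with hρdef
  have hρS : ∀ x ∈ S, 2 * ρ ≤ infDist x (frontier Ω) := by
    intro x hx
    have h1 := hdS x hx
    have h2 : ρ ≤ d / 2 := min_le_right _ _
    linarith
  set A : ℝ := ∑ i, Real.sqrt (∫ x in Ω, ‖gr (fun y => h i y - U i y) x‖ ^ 2) with hA
  have hA0 : 0 ≤ A := Finset.sum_nonneg fun i _ => Real.sqrt_nonneg _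
  have hlim : Tendsto (fun j : ℕ => C / ρ ^ 2 * A * Real.sqrt ((2:ℝ)⁻¹ ^ j)) atTop (𝓝 0) := by
    have h1 : Tendsto (fun j : ℕ => (2:ℝ)⁻¹ ^ j) atTop (𝓝 0) :=
      tendsto_pow_atTop_nhds_zero_of_lt_one (by norm_num) (by norm_num)
    have h2 := (Real.continuous_sqrt.tendsto 0).comp h1
    have h3 := h2.const_mul (C / ρ ^ 2 * A)
    simpa using h3
  have hev := ((((ss_tendsto.eventually (gt_mem_nhds hε)).and
    (ss_tendsto.eventually (gt_mem_nhds (show (0:ℝ) < ρ / 16 by positivity)))).and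
    (hlim.eventually (gt_mem_nhds (show (0:ℝ) < 3 / 4 * c0 by positivity)))).and
    (eventually_ge_atTop j0)).and (eventually_ge_atTop 3)
  obtain ⟨j, ⟨⟨⟨hj1, hj2⟩, hj3⟩, hj4⟩, hj5⟩ := hev.exists
  refine ⟨ss j, ⟨ss_pos j, hj1⟩, ?_⟩
  intro x hx hxr
  by_contra hcon
  push Not at hcon
  choose nv hnv1 hnv2 using hcon
  have hsp := ss_pos j
  have hxS : ∀ r, x r ∉ S := by
    intro r hr
    have h1 := hρS _ hr
    have h2 := (hx r).2.2
    linarith
  have hxle : ∀ r, ‖x r - x 0‖ ≤ ss j := by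
    intro r
    rw [hxr r, div_le_iff₀ hn0, mul_comm (ss j)]
    refine mul_le_mul_of_nonneg_right ?_ hsp.le
    have := r.2
    exact_mod_cast Nat.lt_succ_iff.1 this
  obtain ⟨a, ha1, ha2, ha3, ha4⟩ := hrel σ ν S ρ (ss j) hsurf hS hSΩ hρ (min_le_left _ _) hρS hsp
    (by linarith) x nv hx hxle hnv1
  obtain ⟨P, hP1, hP2⟩ := hj0 j hj4 (x 0) (hx 0).1 (hx 0).2.2
  have hdx : ∀ r, dist (x r) (x 0) ≤ ss j := fun r => by rw [dist_eq_norm]; exact hxle r
  obtain ⟨q, hq, hqc⟩ := hind (fun r => (ss j)⁻¹ • (x r - P)) nv a (fun r => by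
    have h1 := hP1 (x r) (hx r).1 (hdx r) (hx r).2.1
    rw [norm_smul, norm_inv, Real.norm_of_nonneg hsp.le, ← dist_eq_norm, inv_mul_eq_div]
    rw [le_div_iff₀ hsp, div_le_iff₀ hsp]
    constructor <;> linarith [h1.1, h1.2]) (fun r r' hrr => by
    have h1 : (ss j)⁻¹ • (x r - P) - (ss j)⁻¹ • (x r' - P) =
        (ss j)⁻¹ • ((x r - x 0) - (x r' - x 0)) := by module
    rw [h1, norm_smul, norm_inv, Real.norm_of_nonneg hsp.le, inv_mul_eq_div, le_div_iff₀ hsp]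
    refine le_trans ?_ (abs_norm_sub_norm_le _ _)
    rw [hxr r, hxr r']
    have h2 : ((r : ℕ) : ℝ) * ss j / n - ((r' : ℕ) : ℝ) * ss j / n =
      (((r : ℕ) : ℝ) - ((r' : ℕ) : ℝ)) * (1 / n * ss j) := by ring
    rw [h2, abs_mul, abs_of_pos (by positivity : 0 < 1 / (n:ℝ) * ss j)]
    have h3 : (1 : ℝ) ≤ |((r : ℕ) : ℝ) - ((r' : ℕ) : ℝ)| := by
      have h4 : ((r : ℕ) : ℤ) - ((r' : ℕ) : ℤ) ≠ 0 := by
        intro h5
        apply hrr
        ext
        omega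
      have h5 := Int.one_le_abs h4
      have h6 : ((1 : ℤ) : ℝ) ≤ ((|((r : ℕ) : ℤ) - ((r' : ℕ) : ℤ)| : ℤ) : ℝ) := by
        exact_mod_cast h5
      simpa using h6
    calc 1 / (n:ℝ) * ss j = 1 * (1 / (n:ℝ) * ss j) := (one_mul _).symm
      _ ≤ _ := mul_le_mul_of_nonneg_right h3 (by positivity)) hnv1 ha1 ha2
  obtain ⟨i, b, hib⟩ := hP2 q hq
  -- the sum for the noise function
  have hsum1 : ∑ r, a r * ⟪gr (fun y => h i y - U i y) (x r), nv r⟫ =
      - ∑ r, a r * ⟪gr (U i) (x r), nv r⟫ := by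
    rw [← Finset.sum_neg_distrib]
    refine Finset.sum_congr rfl fun r _ => ?_
    have hO : IsOpen (Ω \ S) := hD.op.sdiff hS.isClosed
    have hd1 : DifferentiableAt ℝ (h i) (x r) :=
      ((hharm i).1.contDiffAt (hO.mem_nhds ⟨(hx r).1, hxS r⟩)).differentiableAt (by simp)
    have hd2 : DifferentiableAt ℝ (U i) (x r) :=
      ((hnoise i).harm.1.contDiffAt (hD.op.mem_nhds (hx r).1)).differentiableAt (by simp)
    rw [gr_sub hd1 hd2, inner_sub_left, hnv2 r i]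
    ring
  have hb1 := ha4 _ _ (hzn i)
  rw [hsum1, abs_neg] at hb1
  have hb2 : Real.sqrt (∫ x in Ω, ‖gr (fun y => h i y - U i y) x‖ ^ 2) ≤ A :=
    Finset.single_le_sum (f := fun i => Real.sqrt (∫ x in Ω, ‖gr (fun y => h i y - U i y) x‖ ^ 2))
      (fun i _ => Real.sqrt_nonneg _) (Finset.mem_univ i)
  have hb3 : |∑ r, a r * ⟪gr (U i) (x r), nv r⟫| ≤ C / ρ ^ 2 * A * Real.sqrt ((2:ℝ)⁻¹ ^ j) * ee j := by
    refine hb1.trans ?_
    calc C * Real.sqrt (ss j) / ρ ^ 2 * Real.sqrt (∫ x in Ω, ‖gr (fun y => h i y - U i y) x‖ ^ 2)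
        ≤ C * Real.sqrt (ss j) / ρ ^ 2 * A := mul_le_mul_of_nonneg_left hb2 (by positivity)
      _ = C / ρ ^ 2 * A * Real.sqrt (ss j) := by ring
      _ ≤ C / ρ ^ 2 * A * (Real.sqrt ((2:ℝ)⁻¹ ^ j) * ee j) :=
          mul_le_mul_of_nonneg_left (sqrt_ss_le j hj5) (by positivity)
      _ = _ := by ring
  have hee := ee_pos j
  have hb4 : |∑ r, a r * ⟪gr (U i) (x r), nv r⟫| < 3 / 4 * c0 * ee j :=
    lt_of_le_of_lt hb3 (mul_lt_mul_of_pos_right hj3 hee)
  -- decomposition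
  have hdec : ∑ r, a r * ⟪gr (U i) (x r), nv r⟫ =
      ee j * ∑ r, a r * ⟪gr (HH q.1 q.2) ((ss j)⁻¹ • (x r - P)), nv r⟫ +
      ∑ r, a r * ⟪gr (U i) (x r) - b - ee j • gr (HH q.1 q.2) ((ss j)⁻¹ • (x r - P)), nv r⟫ := by
    have hz : ∑ r, a r * ⟪b, nv r⟫ = 0 := by
      have h1 : ⟪b, ∑ r, a r • nv r⟫ = (0:ℝ) := by rw [ha3, inner_zero_right]
      rw [inner_sum] at h1
      rw [← h1]
      exact Finset.sum_congr rfl fun r _ => by rw [inner_smul_right]
    have h2 : ∀ r, a r * ⟪gr (U i) (x r) - b - ee j • gr (HH q.1 q.2) ((ss j)⁻¹ • (x r - P)), nv r⟫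
        = a r * ⟪gr (U i) (x r), nv r⟫ - a r * ⟪b, nv r⟫ -
          ee j * (a r * ⟪gr (HH q.1 q.2) ((ss j)⁻¹ • (x r - P)), nv r⟫) := by
      intro r
      rw [inner_sub_left, inner_sub_left, inner_smul_left]
      simp
      ring
    simp only [h2, Finset.sum_sub_distrib, ← Finset.mul_sum, hz]
    ring
  have herr : |∑ r, a r * ⟪gr (U i) (x r) - b - ee j • gr (HH q.1 q.2) ((ss j)⁻¹ • (x r - P)), nv r⟫|
      ≤ c0 / 4 * ee j := by
    refine (Finset.abs_sum_le_sum_abs _ _).trans ?_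
    have h1 : ∀ r ∈ (Finset.univ : Finset (Fin (n + 1))),
        |a r * ⟪gr (U i) (x r) - b - ee j • gr (HH q.1 q.2) ((ss j)⁻¹ • (x r - P)), nv r⟫| ≤
          c0 / (4 * (n + 1)) * ee j := by
      intro r _
      rw [abs_mul]
      have h2 := hib (x r) (hx r).1 (hdx r) (hx r).2.1
      have h3 := abs_real_inner_le_norm
        (gr (U i) (x r) - b - ee j • gr (HH q.1 q.2) ((ss j)⁻¹ • (x r - P))) (nv r)
      rw [hnv1 r, mul_one] at h3
      calc |a r| * |⟪gr (U i) (x r) - b - ee j • gr (HH q.1 q.2) ((ss j)⁻¹ • (x r - P)), nv r⟫|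
          ≤ 1 * (c0 / (4 * (n + 1)) * ee j) :=
            mul_le_mul (ha1 r) (h3.trans h2) (abs_nonneg _) zero_le_one
        _ = _ := one_mul _
    refine (Finset.sum_le_card_nsmul _ _ _ h1).trans (le_of_eq ?_)
    rw [Finset.card_univ, Fintype.card_fin, nsmul_eq_mul]
    push_cast
    field_simp
  have hfin : ee j * c0 ≤ |ee j * ∑ r, a r * ⟪gr (HH q.1 q.2) ((ss j)⁻¹ • (x r - P)), nv r⟫| := by
    rw [abs_mul, abs_of_pos hee]
    exact mul_le_mul_of_nonneg_left hqc hee.le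
  have hfin2 : |ee j * ∑ r, a r * ⟪gr (HH q.1 q.2) ((ss j)⁻¹ • (x r - P)), nv r⟫| ≤
      |∑ r, a r * ⟪gr (U i) (x r), nv r⟫| +
      |∑ r, a r * ⟪gr (U i) (x r) - b - ee j • gr (HH q.1 q.2) ((ss j)⁻¹ • (x r - P)), nv r⟫| := by
    have h1 : ee j * ∑ r, a r * ⟪gr (HH q.1 q.2) ((ss j)⁻¹ • (x r - P)), nv r⟫ =
      ∑ r, a r * ⟪gr (U i) (x r), nv r⟫ -
      ∑ r, a r * ⟪gr (U i) (x r) - b - ee j • gr (HH q.1 q.2) ((ss j)⁻¹ • (x r - P)), nv r⟫ := by
      rw [hdec]; ring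
    rw [h1]
    exact abs_sub _ _
  nlinarith

end Pool.Agent.H39.IC
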