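import Mathlib
import Pool.Agent.H94.IC.Targets3

open MeasureTheory Set Filter Topology Metric
open scoped ENNReal NNReal ContDiff RealInnerProductSpace

namespace Pool.Agent.H39.IC.DIP

open Pool.Agent.H94.IC

theorem inner_gr (f : E → ℝ) (x v : E) : ⟪gr f x, v⟫ = fderiv ℝ f x v := by
  unfold gr gradient
  exact InnerProductSpace.toDual_symm_apply

theorem HH_succ (w : E) (k : ℕ) : HH w (k + 1) = fun y => fderiv ℝ (HH w k) y w := by
  unfold HH
  rw [Function.iterate_succ_apply']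

theorem analyticAt_HH (w : E) (k : ℕ) {y : E} (hy : y ≠ 0) : AnalyticAt ℝ (HH w k) y := by
  induction k generalizing y with
  | zero =>
    have h1 : ContDiffAt ℝ ω (fun y : E => ‖y‖) y := contDiffAt_norm ℝ hy
    have h2 : ContDiffAt ℝ ω (fun y : E => ‖y‖⁻¹) y := h1.inv (norm_ne_zero_iff.2 hy)
    exact h2.analyticAt
  | succ k ih =>
    rw [HH_succ]
    have h1 : AnalyticAt ℝ (fderiv ℝ (HH w k)) y := (ih hy).fderiv
    exact ((ContinuousLinearMap.apply ℝ ℝ w).analyticAt _).comp h1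

/-- the derivative along the line -/
theorem hasDerivAt_line (w v y : E) (k : ℕ) (t : ℝ) (h : y - t • w ≠ 0) :
    HasDerivAt (fun t : ℝ => fderiv ℝ (HH w k) (y - t • w) v)
      (- fderiv ℝ (HH w (k + 1)) (y - t • w) v) t := by
  have ha := analyticAt_HH w k h
  have h1 : DifferentiableAt ℝ (fderiv ℝ (HH w k)) (y - t • w) := ha.fderiv.differentiableAt
  have h2 : HasDerivAt (fun t : ℝ => y - t • w) (-w) t := by
    have h3 : HasDerivAt (fun t : ℝ => t • w) ((1:ℝ) • w) t := (hasDerivAt_id t).smul_const w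
    have h4 := h3.const_sub y
    rwa [one_smul] at h4
  have h5 : HasDerivAt (fun t : ℝ => fderiv ℝ (HH w k) (y - t • w))
      (fderiv ℝ (fderiv ℝ (HH w k)) (y - t • w) (-w)) t :=
    h1.hasFDerivAt.comp_hasDerivAt t h2
  have h6 := (ContinuousLinearMap.apply ℝ ℝ v).hasFDerivAt.comp_hasDerivAt t h5
  have h7 : fderiv ℝ (HH w (k + 1)) (y - t • w) v =
      fderiv ℝ (fderiv ℝ (HH w k)) (y - t • w) w v := by
    rw [HH_succ]
    have h8 : HasFDerivAt (fun y => fderiv ℝ (HH w k) y w)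
        ((ContinuousLinearMap.apply ℝ ℝ w).comp (fderiv ℝ (fderiv ℝ (HH w k)) (y - t • w)))
        (y - t • w) := (ContinuousLinearMap.apply ℝ ℝ w).hasFDerivAt.comp _ h1.hasFDerivAt
    rw [h8.fderiv]
    have h9 : IsSymmSndFDerivAt ℝ (HH w k) (y - t • w) :=
      ContDiffAt.isSymmSndFDerivAt_of_omega ha.contDiffAt
    exact h9.eq v w
  rw [h7]
  refine h6.congr_deriv ?_
  simp

section

variable {n : ℕ} (y nv : Fin (n + 1) → E) (a : Fin (n + 1) → ℝ)

/-- the sums along the line -/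
noncomputable def Ph (w : E) (k : ℕ) (t : ℝ) : ℝ :=
  ∑ r, a r * fderiv ℝ (HH w k) (y r - t • w) (nv r)

theorem hasDerivAt_Ph (w : E) (k : ℕ) (t : ℝ) (h : ∀ r, y r - t • w ≠ 0) :
    HasDerivAt (Ph y nv a w k) (- Ph y nv a w (k + 1) t) t := by
  unfold Ph
  rw [← Finset.sum_neg_distrib]
  refine HasDerivAt.fun_sum fun r _ => ?_
  have h1 := (hasDerivAt_line w (nv r) (y r) k t (h r)).const_mul (a r)
  refine h1.congr_deriv ?_
  ring

theorem analyticAt_Ph (w : E) (k : ℕ) (t : ℝ) (h : ∀ r, y r - t • w ≠ 0) :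
    AnalyticAt ℝ (Ph y nv a w k) t := by
  unfold Ph
  refine Finset.analyticAt_fun_sum _ fun r _ => ?_
  refine analyticAt_const.mul ?_
  have h1 : AnalyticAt ℝ (fderiv ℝ (HH w k)) (y r - t • w) := (analyticAt_HH w k (h r)).fderiv
  have h2 : AnalyticAt ℝ (fun t : ℝ => y r - t • w) t :=
    analyticAt_const.sub (analyticAt_id.smul analyticAt_const)
  have h3 : AnalyticAt ℝ (fun t : ℝ => fderiv ℝ (HH w k) (y r - t • w)) t :=
    h1.comp_of_eq h2 rfl
  exact ((ContinuousLinearMap.apply ℝ ℝ (nv r)).analyticAt _).comp h3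

theorem iteratedDeriv_Ph (w : E) (j k : ℕ) (U : Set ℝ) (hU : IsOpen U)
    (h : ∀ t ∈ U, ∀ r, y r - t • w ≠ 0) :
    ∀ t ∈ U, iteratedDeriv k (Ph y nv a w j) t = (-1) ^ k * Ph y nv a w (j + k) t := by
  induction k with
  | zero => intro t _; simp
  | succ k ih =>
    intro t ht
    rw [iteratedDeriv_succ]
    have h1 : iteratedDeriv k (Ph y nv a w j) =ᶠ[𝓝 t] fun t => (-1) ^ k * Ph y nv a w (j + k) t := by
      filter_upwards [hU.mem_nhds ht] with s hs using ih s hs
    rw [h1.deriv_eq]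
    have h2 := (hasDerivAt_Ph y nv a w (j + k) t (h t ht)).const_mul ((-1) ^ k)
    rw [h2.deriv, pow_succ]
    have : j + (k + 1) = j + k + 1 := by ring
    rw [this]
    ring

/-- vanishing derivatives of order at least two: the function is affine on the line -/
theorem Ph_affine (w : E) (ε : ℝ) (hε : 0 < ε) (h : ∀ t ∈ Ioo (-ε) ε, ∀ r, y r - t • w ≠ 0)
    (hz : ∀ k, 2 ≤ k → Ph y nv a w k 0 = 0) :
    ∀ t ∈ Ioo (-ε) ε, Ph y nv a w 0 t = Ph y nv a w 0 0 - t * Ph y nv a w 1 0 := by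
  have h0 : (0:ℝ) ∈ Ioo (-ε) ε := ⟨by linarith, hε⟩
  have hpre : IsPreconnected (Ioo (-ε) ε) := isPreconnected_Ioo
  -- the second derivative vanishes
  have h1 : analyticOrderAt (Ph y nv a w 2) 0 = ⊤ := by
    rw [ENat.eq_top_iff_forall_ge]
    intro m
    rw [natCast_le_analyticOrderAt_iff_iteratedDeriv_eq_zero (analyticAt_Ph y nv a w 2 0 (h 0 h0))]
    intro i _
    rw [iteratedDeriv_Ph y nv a w 2 i _ isOpen_Ioo h 0 h0, hz _ (by omega), mul_zero]
  rw [analyticOrderAt_eq_top] at h1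
  have h2 : EqOn (Ph y nv a w 2) 0 (Ioo (-ε) ε) :=
    AnalyticOnNhd.eqOn_zero_of_preconnected_of_eventuallyEq_zero
      (fun t ht => analyticAt_Ph y nv a w 2 t (h t ht)) hpre h0 h1
  have h3 : ∀ t ∈ Ioo (-ε) ε, Ph y nv a w 1 t = Ph y nv a w 1 0 := by
    intro t ht
    refine (convex_Ioo (-ε) ε).is_const_of_fderivWithin_eq_zero (𝕜 := ℝ) (f := Ph y nv a w 1) ?_ ?_ ht h0
    · intro s hs
      exact (hasDerivAt_Ph y nv a w 1 s (h s hs)).differentiableAt.differentiableWithinAt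
    · intro s hs
      have h4 := hasDerivAt_Ph y nv a w 1 s (h s hs)
      rw [h2 hs] at h4
      have h5 : HasFDerivAt (Ph y nv a w 1) (0 : ℝ →L[ℝ] ℝ) s := by
        have := h4.hasFDerivAt
        refine this.congr_fderiv ?_
        ext
        simp
      exact h5.hasFDerivWithinAt.fderivWithin (isOpen_Ioo.uniqueDiffWithinAt hs)
  have h6 : ∀ t ∈ Ioo (-ε) ε, Ph y nv a w 0 t + t * Ph y nv a w 1 0 =
      Ph y nv a w 0 0 + 0 * Ph y nv a w 1 0 := by
    intro t ht
    have h7 : ∀ s ∈ Ioo (-ε) ε, HasDerivAt (fun t => Ph y nv a w 0 t + t * Ph y nv a w 1 0) 0 s := by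
      intro s hs
      have h8 := (hasDerivAt_Ph y nv a w 0 s (h s hs)).add
        ((hasDerivAt_id s).mul_const (Ph y nv a w 1 0))
      refine h8.congr_deriv ?_
      rw [zero_add, h3 s hs]
      ring
    refine (convex_Ioo (-ε) ε).is_const_of_fderivWithin_eq_zero (𝕜 := ℝ)
      (f := fun t => Ph y nv a w 0 t + t * Ph y nv a w 1 0) ?_ ?_ ht h0
    · intro s hs
      exact (h7 s hs).differentiableAt.differentiableWithinAt
    · intro s hs
      have h5 : HasFDerivAt (fun t => Ph y nv a w 0 t + t * Ph y nv a w 1 0) (0 : ℝ →L[ℝ] ℝ) s := by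
        refine (h7 s hs).hasFDerivAt.congr_fderiv ?_
        ext
        simp
      exact h5.hasFDerivWithinAt.fderivWithin (isOpen_Ioo.uniqueDiffWithinAt hs)
  intro t ht
  have := h6 t ht
  linarith

/-- the dipole potential -/
noncomputable def Ps (z : E) : ℝ := ∑ r, a r * fderiv ℝ (fun y : E => ‖y‖⁻¹) (y r - z) (nv r)

theorem analyticAt_Ps (z : E) (h : ∀ r, y r - z ≠ 0) : AnalyticAt ℝ (Ps y nv a) z := by
  unfold Ps
  refine Finset.analyticAt_fun_sum _ fun r _ => ?_
  refine analyticAt_const.mul ?_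
  have h1 : AnalyticAt ℝ (fderiv ℝ (fun y : E => ‖y‖⁻¹)) (y r - z) :=
    (analyticAt_HH 0 0 (h r)).fderiv
  have h2 : AnalyticAt ℝ (fun z : E => y r - z) z := analyticAt_const.sub analyticAt_id
  have h3 : AnalyticAt ℝ (fun z : E => fderiv ℝ (fun y : E => ‖y‖⁻¹) (y r - z)) z :=
    h1.comp_of_eq h2 rfl
  exact ((ContinuousLinearMap.apply ℝ ℝ (nv r)).analyticAt _).comp h3

end

/-- the derivative of the inverse norm -/
theorem fderiv_inv_norm {u : E} (hu : u ≠ 0) (v : E) :
    fderiv ℝ (fun y : E => ‖y‖⁻¹) u v = - ⟪u, v⟫ / ‖u‖ ^ 3 := by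
  have hn : ‖u‖ ≠ 0 := norm_ne_zero_iff.2 hu
  have h1 : HasFDerivAt (fun y : E => ‖y‖) ((‖u‖)⁻¹ • innerSL ℝ u) u := by
    have h2 : HasFDerivAt (fun y : E => ‖y‖ ^ 2) (2 • (innerSL ℝ u)) u := (hasStrictFDerivAt_norm_sq u).hasFDerivAt
    have h3 := h2.sqrt (by positivity)
    have h4 : (fun y : E => Real.sqrt (‖y‖ ^ 2)) = fun y => ‖y‖ := by
      funext y
      exact Real.sqrt_sq (norm_nonneg y)
    rw [h4] at h3
    refine h3.congr_fderiv ?_
    rw [Real.sqrt_sq (norm_nonneg u)]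
    ext v
    simp
    field_simp
  have h5 : HasFDerivAt (fun y : E => ‖y‖⁻¹) (-((‖u‖ ^ 2)⁻¹ • ((‖u‖)⁻¹ • innerSL ℝ u))) u := by
    have h6 := (hasDerivAt_inv hn).comp_hasFDerivAt u h1
    refine h6.congr_fderiv ?_
    rw [neg_smul]
  rw [h5.fderiv]
  simp
  field_simp

theorem dip : T_DIP := by
  intro n y nv a hy hinj hnv ha
  by_contra hcon
  push Not at hcon
  -- distances
  have hε : ∃ ε > 0, ∀ r, ε ≤ ‖y r‖ := by
    obtain ⟨r, hr⟩ := Finite.exists_min (fun r => ‖y r‖)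
    exact ⟨‖y r‖, norm_pos_iff.2 (hy r), hr⟩
  obtain ⟨ε, hε, hεy⟩ := hε
  have hline : ∀ w : E, ‖w‖ = 1 → ∀ t ∈ Ioo (-ε) ε, ∀ r, y r - t • w ≠ 0 := by
    intro w hw t ht r h
    have h1 : ‖y r‖ = |t| := by
      rw [sub_eq_zero.1 h, norm_smul, hw, mul_one, Real.norm_eq_abs]
    have h2 : |t| < ε := abs_lt.2 ht
    have := hεy r
    linarith
  -- the potential is affine near the origin
  have hPs : ∀ (w : E) (t : ℝ), Ps y nv a (t • w) = Ph y nv a w 0 t := fun w t => rfl
  have hd0 : DifferentiableAt ℝ (Ps y nv a) 0 :=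
    (analyticAt_Ps y nv a 0 (fun r => by rw [sub_zero]; exact hy r)).differentiableAt
  have haff : ∀ z ∈ ball (0:E) ε, Ps y nv a z = Ps y nv a 0 + fderiv ℝ (Ps y nv a) 0 z := by
    intro z hz
    rw [mem_ball, dist_zero_right] at hz
    by_cases hz0 : z = 0
    · rw [hz0, map_zero, add_zero]
    have hn : 0 < ‖z‖ := norm_pos_iff.2 hz0
    set w : E := ‖z‖⁻¹ • z with hw
    have hw1 : ‖w‖ = 1 := by
      rw [hw, norm_smul, norm_inv, norm_norm, inv_mul_cancel₀ hn.ne']
    have hzw : z = ‖z‖ • w := by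
      rw [hw, smul_smul, mul_inv_cancel₀ hn.ne', one_smul]
    have h1 := Ph_affine y nv a w ε hε (hline w hw1) (by
      intro k hk
      have h2 := hcon w k hw1 hk
      unfold Ph
      refine Eq.trans ?_ h2
      refine Finset.sum_congr rfl fun r _ => ?_
      rw [inner_gr, zero_smul, sub_zero]) ‖z‖ ⟨by linarith, hz⟩
    have h3 : fderiv ℝ (Ps y nv a) 0 w = - Ph y nv a w 1 0 := by
      have h4 := hasDerivAt_Ph y nv a w 0 0 (hline w hw1 0 ⟨by linarith, hε⟩)
      have h5 : HasDerivAt (fun t : ℝ => t • w) w 0 := by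
        have h3 : HasDerivAt (fun t : ℝ => t • w) ((1:ℝ) • w) 0 := (hasDerivAt_id (0:ℝ)).smul_const w
        rwa [one_smul] at h3
      have h6 : HasFDerivAt (Ps y nv a) (fderiv ℝ (Ps y nv a) 0) ((0:ℝ) • w) := by
        rw [zero_smul]
        exact hd0.hasFDerivAt
      have h7 := h6.comp_hasDerivAt (0:ℝ) h5
      exact h7.unique h4
    have h8 : Ps y nv a z = Ph y nv a w 0 ‖z‖ := by
      conv_lhs => rw [hzw]
      exact hPs w ‖z‖
    have h9 : Ph y nv a w 0 0 = Ps y nv a 0 := by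
      rw [← hPs w 0, zero_smul]
    rw [h8, h1, h9]
    have h10 : fderiv ℝ (Ps y nv a) 0 z = ‖z‖ * fderiv ℝ (Ps y nv a) 0 w := by
      conv_lhs => rw [hzw]
      rw [map_smul, smul_eq_mul]
    rw [h10, h3]
    ring
  -- identity theorem
  set O : Set E := (Set.range y)ᶜ with hO
  have hOc : IsConnected O := by
    refine (Set.finite_range y).countable.isConnected_compl_of_one_lt_rank ?_
    rw [← Module.finrank_eq_rank]
    simp
  have hOne : ∀ z ∈ O, ∀ r, y r - z ≠ 0 := by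
    intro z hz r h
    exact hz ⟨r, sub_eq_zero.1 h⟩
  have h0O : (0:E) ∈ O := by
    rintro ⟨r, hr⟩
    exact hy r hr
  have hglob : EqOn (Ps y nv a) (fun z => Ps y nv a 0 + fderiv ℝ (Ps y nv a) 0 z) O := by
    refine AnalyticOnNhd.eqOn_of_preconnected_of_eventuallyEq
      (fun z hz => analyticAt_Ps y nv a z (hOne z hz)) (fun z _ => ?_) hOc.isPreconnected h0O ?_
    · exact analyticAt_const.add ((fderiv ℝ (Ps y nv a) 0).analyticAt z)
    · filter_upwards [ball_mem_nhds (0:E) hε] with z hz using haff z hz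
  -- blow up at a pole
  obtain ⟨r0, hr0⟩ := ha
  have hev : ∀ᶠ s : ℝ in 𝓝[>] 0, ∀ r, y r - (y r0 + s • nv r0) ≠ 0 := by
    rw [Filter.eventually_all]
    intro r
    by_cases hr : r = r0
    · subst hr
      filter_upwards [self_mem_nhdsWithin] with s hs h
      have h1 : s • nv r = 0 := by
        have : y r - (y r + s • nv r) = - (s • nv r) := by abel
        rw [this] at h
        exact neg_eq_zero.1 h
      have h2 := congrArg norm h1
      rw [norm_smul, hnv r, mul_one, norm_zero, norm_eq_zero] at h2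
      exact (ne_of_gt hs) h2
    · have h1 : Tendsto (fun s : ℝ => y r - (y r0 + s • nv r0)) (𝓝[>] 0) (𝓝 (y r - (y r0 + (0:ℝ) • nv r0))) := by
        refine Tendsto.mono_left ?_ nhdsWithin_le_nhds
        have : Continuous fun s : ℝ => y r - (y r0 + s • nv r0) := by fun_prop
        exact this.tendsto 0
      refine h1.eventually_ne ?_
      rw [zero_smul, add_zero]
      intro h
      exact hr (hinj (sub_eq_zero.1 h))
  have hlim1 : Tendsto (fun s : ℝ => s ^ 2 * Ps y nv a (y r0 + s • nv r0)) (𝓝[>] 0) (𝓝 0) := by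
    have h1 : Tendsto (fun s : ℝ => s ^ 2 * (Ps y nv a 0 + fderiv ℝ (Ps y nv a) 0 (y r0 + s • nv r0)))
        (𝓝[>] 0) (𝓝 ((0:ℝ) ^ 2 * (Ps y nv a 0 + fderiv ℝ (Ps y nv a) 0 (y r0 + (0:ℝ) • nv r0)))) := by
      refine Tendsto.mono_left ?_ nhdsWithin_le_nhds
      have : Continuous fun s : ℝ =>
          s ^ 2 * (Ps y nv a 0 + fderiv ℝ (Ps y nv a) 0 (y r0 + s • nv r0)) := by
        fun_prop
      exact this.tendsto 0
    have h2 : ((0:ℝ) ^ 2 * (Ps y nv a 0 + fderiv ℝ (Ps y nv a) 0 (y r0 + (0:ℝ) • nv r0))) = 0 := by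
      simp
    rw [h2] at h1
    refine h1.congr' ?_
    filter_upwards [hev] with s hs
    have h3 : y r0 + s • nv r0 ∈ O := by
      rintro ⟨r, hr⟩
      exact hs r (by rw [hr, sub_self])
    rw [hglob h3]
  have hlim2 : Tendsto (fun s : ℝ => s ^ 2 * Ps y nv a (y r0 + s • nv r0)) (𝓝[>] 0) (𝓝 (a r0)) := by
    have h1 : ∀ r, Tendsto (fun s : ℝ => s ^ 2 *
        (a r * fderiv ℝ (fun y : E => ‖y‖⁻¹) (y r - (y r0 + s • nv r0)) (nv r))) (𝓝[>] 0)
        (𝓝 (if r = r0 then a r0 else 0)) := by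
      intro r
      by_cases hr : r = r0
      · subst hr
        rw [if_pos rfl]
        refine tendsto_const_nhds.congr' ?_
        filter_upwards [self_mem_nhdsWithin] with s hs
        have hs' : (0:ℝ) < s := hs
        have h2 : y r - (y r + s • nv r) = - (s • nv r) := by abel
        have h3 : -(s • nv r) ≠ 0 := by
          rw [neg_ne_zero]
          intro h
          have h2 := congrArg norm h
          rw [norm_smul, hnv r, mul_one, norm_zero, norm_eq_zero] at h2
          exact hs'.ne' h2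
        rw [h2, fderiv_inv_norm h3, norm_neg, norm_smul, hnv r, mul_one, inner_neg_left,
          inner_smul_left, real_inner_self_eq_norm_sq, hnv r, Real.norm_of_nonneg hs'.le]
        simp
        field_simp
      · rw [if_neg hr]
        have hne : y r - y r0 ≠ 0 := fun h => hr (hinj (sub_eq_zero.1 h))
        have h4 : ContinuousAt (fderiv ℝ (fun y : E => ‖y‖⁻¹)) (y r - y r0) :=
          (analyticAt_HH 0 0 hne).fderiv.continuousAt
        have h5 : Tendsto (fun s : ℝ => y r - (y r0 + s • nv r0)) (𝓝[>] 0) (𝓝 (y r - y r0)) := by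
          refine Tendsto.mono_left ?_ nhdsWithin_le_nhds
          have : Continuous fun s : ℝ => y r - (y r0 + s • nv r0) := by fun_prop
          have := this.tendsto 0
          simpa using this
        have h6 := h4.tendsto.comp h5
        have h7 : Tendsto (fun s : ℝ => fderiv ℝ (fun y : E => ‖y‖⁻¹) (y r - (y r0 + s • nv r0)) (nv r))
            (𝓝[>] 0) (𝓝 (fderiv ℝ (fun y : E => ‖y‖⁻¹) (y r - y r0) (nv r))) :=
          ((ContinuousLinearMap.apply ℝ ℝ (nv r)).continuous.tendsto _).comp h6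
        have h8 : Tendsto (fun s : ℝ => s ^ 2) (𝓝[>] 0) (𝓝 0) := by
          refine Tendsto.mono_left ?_ nhdsWithin_le_nhds
          have : Continuous fun s : ℝ => s ^ 2 := by fun_prop
          have := this.tendsto 0
          simpa using this
        have h9 := h8.mul (h7.const_mul (a r))
        simpa using h9
    have h10 := tendsto_finsetSum (Finset.univ : Finset (Fin (n + 1))) fun r _ => h1 r
    simp only [Finset.sum_ite_eq', Finset.mem_univ, if_true] at h10
    refine h10.congr fun s => ?_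
    unfold Ps
    rw [Finset.mul_sum]
  exact hr0 (tendsto_nhds_unique hlim2 hlim1)

end Pool.Agent.H39.IC.DIP
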