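import Mathlib
import Pool.Agent.H94.IC.Targets3

open MeasureTheory Set Filter Topology Metric
open scoped ENNReal NNReal ContDiff RealInnerProductSpace

namespace Pool.Agent.H39.IC.REL

open Pool.Agent.H94.IC

theorem pd_congr {O : Set E} (hO : IsOpen O) {f g : E → ℝ} (h : ∀ x ∈ O, f x = g x) (k : Fin 3)
    {x : E} (hx : x ∈ O) : pd k f x = pd k g x := by
  unfold pd
  have : f =ᶠ[𝓝 x] g := by
    filter_upwards [hO.mem_nhds hx] with y hy using h y hy
  rw [this.fderiv_eq]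

theorem gr_congr {O : Set E} (hO : IsOpen O) {f g : E → ℝ} (h : ∀ x ∈ O, f x = g x)
    {x : E} (hx : x ∈ O) : gr f x = gr g x := by
  unfold gr gradient
  have : f =ᶠ[𝓝 x] g := by
    filter_upwards [hO.mem_nhds hx] with y hy using h y hy
  rw [this.fderiv_eq]

theorem harm_congr {O : Set E} (hO : IsOpen O) {f g : E → ℝ} (h : ∀ x ∈ O, g x = f x)
    (hf : Harm O f) : Harm O g := by
  refine ⟨hf.1.congr h, fun x hx => ?_⟩
  rw [← hf.2 x hx]
  refine Finset.sum_congr rfl fun k _ => ?_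
  exact pd_congr hO (fun y hy => pd_congr hO h k hy) k hx

theorem pd_contDiffOn {O : Set E} (hO : IsOpen O) {f : E → ℝ} (hf : ContDiffOn ℝ ∞ f O) (k : Fin 3) :
    ContDiffOn ℝ ∞ (pd k f) O := by
  have h := hf.fderiv_of_isOpen (m := ∞) hO (by norm_num)
  exact h.clm_apply contDiffOn_const

theorem diffAt {O : Set E} (hO : IsOpen O) {f : E → ℝ} (hf : ContDiffOn ℝ ∞ f O) {x : E}
    (hx : x ∈ O) : DifferentiableAt ℝ f x :=
  (hf.contDiffAt (hO.mem_nhds hx)).differentiableAt (by simp)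

theorem harm_add {O : Set E} (hO : IsOpen O) {f g : E → ℝ} (hf : Harm O f) (hg : Harm O g) :
    Harm O (fun x => f x + g x) := by
  refine ⟨hf.1.add hg.1, fun x hx => ?_⟩
  have h1 : ∀ (f g : E → ℝ), ContDiffOn ℝ ∞ f O → ContDiffOn ℝ ∞ g O → ∀ (k : Fin 3), ∀ x ∈ O,
      pd k (fun y => f y + g y) x = pd k f x + pd k g x := by
    intro f g hf hg k x hx
    unfold pd
    rw [fderiv_fun_add (diffAt hO hf hx) (diffAt hO hg hx)]
    rfl
  have h2 : ∀ k : Fin 3, pd k (pd k (fun y => f y + g y)) x = pd k (pd k f) x + pd k (pd k g) x := by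
    intro k
    rw [pd_congr hO (f := pd k (fun y => f y + g y)) (g := fun y => pd k f y + pd k g y)
      (fun y hy => h1 f g hf.1 hg.1 k y hy) k hx]
    exact h1 _ _ (pd_contDiffOn hO hf.1 k) (pd_contDiffOn hO hg.1 k) k x hx
  simp only [h2, Finset.sum_add_distrib]
  rw [hf.2 x hx, hg.2 x hx, add_zero]

theorem harm_smul {O : Set E} (hO : IsOpen O) {f : E → ℝ} (c : ℝ) (hf : Harm O f) :
    Harm O (fun x => c * f x) := by
  refine ⟨contDiffOn_const.mul hf.1, fun x hx => ?_⟩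
  have h1 : ∀ (f : E → ℝ), ContDiffOn ℝ ∞ f O → ∀ (k : Fin 3), ∀ x ∈ O,
      pd k (fun y => c * f y) x = c * pd k f x := by
    intro f hf k x hx
    unfold pd
    rw [fderiv_const_mul (diffAt hO hf hx)]
    rfl
  have h2 : ∀ k : Fin 3, pd k (pd k (fun y => c * f y)) x = c * pd k (pd k f) x := by
    intro k
    rw [pd_congr hO (f := pd k (fun y => c * f y)) (g := fun y => c * pd k f y)
      (fun y hy => h1 f hf.1 k y hy) k hx]
    exact h1 _ (pd_contDiffOn hO hf.1 k) k x hx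
  simp only [h2, ← Finset.mul_sum]
  rw [hf.2 x hx, mul_zero]

theorem gr_add {f g : E → ℝ} {x : E} (hf : DifferentiableAt ℝ f x) (hg : DifferentiableAt ℝ g x) :
    gr (fun y => f y + g y) x = gr f x + gr g x := by
  unfold gr gradient
  rw [fderiv_fun_add hf hg, map_add]

theorem gr_smul {f : E → ℝ} {x : E} (c : ℝ) (hf : DifferentiableAt ℝ f x) :
    gr (fun y => c * f y) x = c • gr f x := by
  unfold gr gradient
  rw [fderiv_const_mul hf, map_smul]

theorem gr_not_diff {f : E → ℝ} {x : E} (hf : ¬ DifferentiableAt ℝ f x) : gr f x = 0 := by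
  unfold gr gradient
  rw [fderiv_zero_of_not_differentiableAt hf, map_zero]

/-- the gradient of a function vanishing on `S` vanishes almost everywhere on `S` -/
theorem gr_ae_zero {S : Set E} (hS : MeasurableSet S) {v : E → ℝ} (hv : ∀ x ∈ S, v x = 0) :
    ∀ᵐ x ∂(volume.restrict S), gr v x = 0 := by
  set s : Set E := S ∩ {x | DifferentiableAt ℝ v x} with hs
  have hsm : MeasurableSet s := hS.inter (measurableSet_of_differentiableAt ℝ v)
  have h1 : ApproximatesLinearOn (fun x => v x • ev 0) (0 : E →L[ℝ] E) s 0 := by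
    intro x hx y hy
    simp [hv x hx.1, hv y hy.1]
  have h2 := h1.norm_fderiv_sub_le volume hsm (fun x => (fderiv ℝ v x).smulRight (ev 0)) (by
    intro x hx
    exact (hx.2.hasFDerivAt.smul_const (ev 0)).hasFDerivWithinAt)
  rw [ae_restrict_iff' hsm] at h2
  rw [ae_restrict_iff' hS]
  filter_upwards [h2] with x hx hxS
  by_cases hd : DifferentiableAt ℝ v x
  · have h3 := hx ⟨hxS, hd⟩
    rw [sub_zero] at h3
    have h4 : (fderiv ℝ v x).smulRight (ev 0) = 0 := by
      rw [← nnnorm_eq_zero]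
      exact le_antisymm h3 zero_le
    have h5 : fderiv ℝ v x = 0 := by
      ext w
      have h6 := congrArg (fun (L : E →L[ℝ] E) => (L w) 0) h4
      simpa using h6
    unfold gr gradient
    rw [h5, map_zero]
  · exact gr_not_diff hd

theorem hs1_congrF {Ω S : Set E} {σ : Measure E} {ν : E → E} {u : E → ℝ} {F F' : E → E} {τ : E → ℝ}
    (h : HS1 Ω S σ ν u F τ) (hF : F =ᵐ[volume.restrict Ω] F') : HS1 Ω S σ ν u F' τ := by
  refine ⟨h.u2, h.F2.ae_eq hF, h.t2, fun X hX hXc hXS => ?_⟩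
  rw [← h.tr X hX hXc hXS]
  refine integral_congr_ae ?_
  filter_upwards [hF] with x hx
  rw [hx]

section

variable {Ω S : Set E} {σ : Measure E} {ν : E → E}

/-- `S` is null for the difference of the gradients -/
theorem ae_Omega (hΩ : IsOpen Ω) (hS : IsCompact S) {f g : E → E} (h1 : ∀ x ∈ Ω \ S, f x = g x)
    (h2 : ∀ᵐ x ∂(volume.restrict S), f x = 0) (h3 : ∀ᵐ x ∂(volume.restrict S), g x = 0) :
    f =ᵐ[volume.restrict Ω] g := by
  have hSm : MeasurableSet S := hS.isClosed.measurableSet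
  rw [ae_restrict_iff' hSm] at h2 h3
  have : ∀ᵐ x ∂(volume.restrict Ω), f x = g x := by
    rw [ae_restrict_iff' hΩ.measurableSet]
    filter_upwards [h2, h3] with x hx hx' hxΩ
    by_cases hxS : x ∈ S
    · rw [hx hxS, hx' hxS]
    · exact h1 x ⟨hxΩ, hxS⟩
  exact this

/-- replacing the values on `S` by zero -/
theorem zn_mod (hΩ : IsOpen Ω) (hS : IsCompact S) {v τ : E → ℝ} (h : ZN Ω S σ ν v τ) :
    ZN Ω S σ ν (Sᶜ.indicator v) τ := by
  have hO : IsOpen (Ω \ S) := hΩ.sdiff hS.isClosed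
  have hSm : MeasurableSet S := hS.isClosed.measurableSet
  have hv : ∀ x ∈ Ω \ S, Sᶜ.indicator v x = v x := fun x hx => indicator_of_mem (by exact hx.2) v
  have hg : ∀ x ∈ Ω \ S, gr (Sᶜ.indicator v) x = gr v x := fun x hx => gr_congr hO hv hx
  have hz : ∀ᵐ x ∂(volume.restrict S), gr (Sᶜ.indicator v) x = 0 :=
    gr_ae_zero hSm fun x hx => indicator_of_notMem (by simpa using hx) v
  have hae : gr (Sᶜ.indicator v) =ᵐ[volume.restrict Ω] Sᶜ.indicator (gr v) := by
    refine ae_Omega hΩ hS (fun x hx => ?_) hz ?_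
    · rw [hg x hx, indicator_of_mem (by exact hx.2)]
    · rw [ae_restrict_iff' hSm]
      exact ae_of_all _ fun x hx => indicator_of_notMem (by simpa using hx) _
  refine ⟨harm_congr hO hv h.harm, ⟨?_, ?_, h.hs.t2, ?_⟩, ?_⟩
  · exact h.hs.u2.indicator hSm.compl
  · exact (h.hs.F2.indicator hSm.compl).ae_eq hae.symm
  · intro X hX hXc hXS
    rw [← h.hs.tr X hX hXc hXS]
    refine setIntegral_congr_fun hΩ.measurableSet fun x hx => ?_
    by_cases hxS : x ∈ S
    · have h0 : X x = 0 := by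
        by_contra h0
        exact Set.disjoint_left.1 hXS (subset_tsupport X h0) hxS
      have h1 : dv X x = 0 := by
        have h2 : x ∉ tsupport X := fun h => Set.disjoint_left.1 hXS h hxS
        have h3 : X =ᶠ[𝓝 x] fun _ => 0 := notMem_tsupport_iff_eventuallyEq.1 h2
        unfold dv
        rw [h3.fderiv_eq]
        simp
      rw [h0, h1, inner_zero_right, inner_zero_right]
      simp
    · simp only [hv x ⟨hx, hxS⟩, hg x ⟨hx, hxS⟩]
  · intro φ G κ hφ hW
    rw [← h.weak φ G κ hφ hW]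
    obtain ⟨W, hWo, hSW, hW0⟩ := hW
    refine setIntegral_congr_fun hΩ.measurableSet fun x hx => ?_
    by_cases hxS : x ∈ S
    · simp only [(hW0 x (hSW hxS)).2, inner_zero_right]
    · simp only [hg x ⟨hx, hxS⟩]

theorem zn_add (hHSM : T_HSM) (hΩ : IsOpen Ω) (hbd : Bornology.IsBounded Ω) (hsurf : IsSurf Ω σ ν)
    (hS : IsCompact S) (hSΩ : S ⊆ Ω) {v τ w τ' : E → ℝ}
    (hv0 : ∀ x ∈ S, v x = 0) (hw0 : ∀ x ∈ S, w x = 0)
    (hv : ZN Ω S σ ν v τ) (hw : ZN Ω S σ ν w τ') :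
    ZN Ω S σ ν (fun x => v x + w x) (fun x => τ x + τ' x) := by
  have hO : IsOpen (Ω \ S) := hΩ.sdiff hS.isClosed
  have hSm : MeasurableSet S := hS.isClosed.measurableSet
  obtain ⟨hadd, -, -, -, -⟩ := hHSM Ω S σ ν hΩ hbd hsurf hS hSΩ
  have hg : ∀ x ∈ Ω \ S, gr (fun x => v x + w x) x = gr v x + gr w x := fun x hx =>
    gr_add (diffAt hO hv.harm.1 hx) (diffAt hO hw.harm.1 hx)
  have hae : gr (fun x => v x + w x) =ᵐ[volume.restrict Ω] fun x => gr v x + gr w x := by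
    refine ae_Omega hΩ hS hg (gr_ae_zero hSm fun x hx => ?_) ?_
    · simp only [hv0 x hx, hw0 x hx, add_zero]
    · filter_upwards [gr_ae_zero hSm hv0, gr_ae_zero hSm hw0] with x h1 h2
      rw [h1, h2, add_zero]
  refine ⟨harm_add hO hv.harm hw.harm, hs1_congrF (hadd _ _ _ _ _ _ hv.hs hw.hs) hae.symm, ?_⟩
  intro φ G κ hφ hW
  have h1 := hv.weak φ G κ hφ hW
  have h2 := hw.weak φ G κ hφ hW
  have h3 : ∫ x in Ω, ⟪gr (fun x => v x + w x) x, G x⟫ =
      ∫ x in Ω, (⟪gr v x, G x⟫ + ⟪gr w x, G x⟫) := by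
    refine integral_congr_ae ?_
    filter_upwards [hae] with x hx
    rw [hx, inner_add_left]
  have hi : ∀ {u : E → ℝ}, MemLp (gr u) 2 (volume.restrict Ω) →
      Integrable (fun x => ⟪gr u x, G x⟫) (volume.restrict Ω) := by
    intro u hu
    have h1 : Integrable (fun x => ‖gr u x‖ * ‖G x‖) (volume.restrict Ω) :=
      hu.norm.integrable_mul hφ.F2.norm
    exact h1.mono' (hu.1.inner hφ.F2.1) (ae_of_all _ fun x => norm_inner_le_norm _ _)
  rw [h3, integral_add (hi hv.hs.F2) (hi hw.hs.F2), h1, h2, add_zero]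

theorem zn_smul (hHSM : T_HSM) (hΩ : IsOpen Ω) (hbd : Bornology.IsBounded Ω) (hsurf : IsSurf Ω σ ν)
    (hS : IsCompact S) (hSΩ : S ⊆ Ω) {v τ : E → ℝ} (c : ℝ)
    (hv0 : ∀ x ∈ S, v x = 0) (hv : ZN Ω S σ ν v τ) :
    ZN Ω S σ ν (fun x => c * v x) (fun x => c * τ x) := by
  have hO : IsOpen (Ω \ S) := hΩ.sdiff hS.isClosed
  have hSm : MeasurableSet S := hS.isClosed.measurableSet
  obtain ⟨-, hmul, -, -, -⟩ := hHSM Ω S σ ν hΩ hbd hsurf hS hSΩ
  have hg : ∀ x ∈ Ω \ S, gr (fun x => c * v x) x = c • gr v x := fun x hx =>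
    gr_smul c (diffAt hO hv.harm.1 hx)
  have hae : gr (fun x => c * v x) =ᵐ[volume.restrict Ω] fun x => c • gr v x := by
    refine ae_Omega hΩ hS hg (gr_ae_zero hSm fun x hx => ?_) ?_
    · simp only [hv0 x hx, mul_zero]
    · filter_upwards [gr_ae_zero hSm hv0] with x h1
      rw [h1, smul_zero]
  refine ⟨harm_smul hO c hv.harm, hs1_congrF (hmul _ _ _ c hv.hs) hae.symm, ?_⟩
  intro φ G κ hφ hW
  have h1 := hv.weak φ G κ hφ hW
  have h3 : ∫ x in Ω, ⟪gr (fun x => c * v x) x, G x⟫ = ∫ x in Ω, c * ⟪gr v x, G x⟫ := by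
    refine integral_congr_ae ?_
    filter_upwards [hae] with x hx
    rw [hx, inner_smul_left]
    simp
  rw [h3, integral_const_mul, h1, mul_zero]

/-- the space of functions with zero Neumann data -/
def VS (hHSM : T_HSM) (hΩ : IsOpen Ω) (hbd : Bornology.IsBounded Ω) (hsurf : IsSurf Ω σ ν)
    (hS : IsCompact S) (hSΩ : S ⊆ Ω) : Submodule ℝ (E → ℝ) where
  carrier := {v | (∀ x ∈ S, v x = 0) ∧ ∃ τ, ZN Ω S σ ν v τ}
  add_mem' := by
    rintro v w ⟨hv, τ, hτ⟩ ⟨hw, τ', hτ'⟩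
    exact ⟨fun x hx => by simp [hv x hx, hw x hx],
      _, zn_add hHSM hΩ hbd hsurf hS hSΩ hv hw hτ hτ'⟩
  zero_mem' := by
    refine ⟨fun x _ => rfl, fun _ => 0, ?_⟩
    obtain ⟨-, -, -, hsm, -⟩ := hHSM Ω S σ ν hΩ hbd hsurf hS hSΩ
    have hgr : gr (0 : E → ℝ) = fun _ => 0 := by
      funext x
      unfold gr gradient
      have : fderiv ℝ (0 : E → ℝ) x = 0 := by
        have := fderiv_const_apply (𝕜 := ℝ) (E := E) (x := x) (0 : ℝ)
        exact this
      rw [this, map_zero]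
    have hpd : ∀ (k : Fin 3), pd k (0 : E → ℝ) = 0 := by
      intro k
      funext x
      unfold pd
      have : fderiv ℝ (0 : E → ℝ) x = 0 := by
        have := fderiv_const_apply (𝕜 := ℝ) (E := E) (x := x) (0 : ℝ)
        exact this
      rw [this]
      rfl
    refine ⟨⟨contDiffOn_const, fun x _ => ?_⟩, hsm 0 contDiff_const, ?_⟩
    · simp [hpd]
    · intro φ G κ hφ hW
      rw [hgr]
      simp
  smul_mem' := by
    rintro c v ⟨hv, τ, hτ⟩
    exact ⟨fun x hx => by simp [hv x hx], _, zn_smul hHSM hΩ hbd hsurf hS hSΩ c hv hτ⟩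

end

end Pool.Agent.H39.IC.REL
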