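import Mathlib
import Pool.Agent.H94.IC.Targets3
import Pool.Agent.H39.IC.REL1

open MeasureTheory Set Filter Topology Metric
open scoped ENNReal NNReal ContDiff RealInnerProductSpace

namespace Pool.Agent.H39.IC.REL

open Pool.Agent.H94.IC

theorem exists_orth (n p : ℕ) (hp : p + 3 ≤ n + 1) (nv : Fin (n + 1) → E) :
    ∃ c : Fin p → EuclideanSpace ℝ (Fin (n + 1)), Orthonormal ℝ c ∧ ∀ q, ∑ r, c q r • nv r = 0 := by
  let L : EuclideanSpace ℝ (Fin (n + 1)) →ₗ[ℝ] E :=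
    { toFun := fun b => ∑ r, b r • nv r
      map_add' := by
        intro x y
        simp [add_smul, Finset.sum_add_distrib]
      map_smul' := by
        intro m x
        simp [Finset.smul_sum, smul_smul] }
  have h1 := LinearMap.finrank_range_add_finrank_ker L
  have h2 : Module.finrank ℝ (LinearMap.range L) ≤ 3 := by
    refine (Submodule.finrank_le _).trans ?_
    simp
  have h3 : Module.finrank ℝ (EuclideanSpace ℝ (Fin (n + 1))) = n + 1 := by simp
  have h4 : p ≤ Module.finrank ℝ (LinearMap.ker L) := by omega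
  have h5 := (stdOrthonormalBasis ℝ (LinearMap.ker L)).orthonormal.comp (Fin.castLE h4)
    (Fin.castLE_injective h4)
  have h6 := h5.comp_linearIsometry (LinearMap.ker L).subtypeₗᵢ
  refine ⟨_, h6, fun q => ?_⟩
  have h7 := ((stdOrthonormalBasis ℝ (LinearMap.ker L)) (Fin.castLE h4 q)).2
  exact h7

theorem comb_norm {n p : ℕ} {c : Fin p → EuclideanSpace ℝ (Fin (n + 1))} (hc : Orthonormal ℝ c)
    (b : Fin p → ℝ) : ∑ r, (∑ q, b q * c q r) ^ 2 = ∑ q, b q ^ 2 := by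
  have h1 : ‖∑ q, b q • c q‖ ^ 2 = ∑ r, (∑ q, b q * c q r) ^ 2 := by
    rw [EuclideanSpace.norm_sq_eq]
    refine Finset.sum_congr rfl fun r _ => ?_
    rw [Real.norm_eq_abs, sq_abs]
    congr 1
    simp
  rw [← h1, ← real_inner_self_eq_norm_sq, hc.inner_sum]
  exact Finset.sum_congr rfl fun q _ => by simp [sq]

section

variable {Ω S : Set E} {σ : Measure E} {ν : E → E}

theorem mem_integrableOn_sq {u : E → ℝ} {D : Set E} (hu : MemLp (gr u) 2 (volume.restrict Ω))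
    (hD : D ⊆ Ω) : IntegrableOn (fun x => ‖gr u x‖ ^ 2) D := by
  have h1 : Integrable (fun x => ‖gr u x‖ ^ 2) (volume.restrict Ω) := hu.norm.integrable_sq
  exact IntegrableOn.mono_set h1 hD

theorem inner_integrableOn {u w : E → ℝ} {D : Set E} (hu : MemLp (gr u) 2 (volume.restrict Ω))
    (hw : MemLp (gr w) 2 (volume.restrict Ω)) (hD : D ⊆ Ω) :
    IntegrableOn (fun x => ⟪gr u x, gr w x⟫) D := by
  have h1 : Integrable (fun x => ‖gr u x‖ * ‖gr w x‖) (volume.restrict Ω) :=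
    hu.norm.integrable_mul hw.norm
  have h2 : Integrable (fun x => ⟪gr u x, gr w x⟫) (volume.restrict Ω) :=
    h1.mono' (hu.1.inner hw.1) (ae_of_all _ fun x => norm_inner_le_norm _ _)
  exact IntegrableOn.mono_set h2 hD

variable (hHSM : T_HSM) (hΩ : IsOpen Ω) (hbd : Bornology.IsBounded Ω) (hsurf : IsSurf Ω σ ν)
    (hS : IsCompact S) (hSΩ : S ⊆ Ω)

theorem vs_gr_add (v w : VS hHSM hΩ hbd hsurf hS hSΩ) {x : E} (hx : x ∈ Ω \ S) :
    gr ((v + w : VS hHSM hΩ hbd hsurf hS hSΩ) : E → ℝ) x = gr (v : E → ℝ) x + gr (w : E → ℝ) x := by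
  obtain ⟨-, τ, hτ⟩ := v.2
  obtain ⟨-, τ', hτ'⟩ := w.2
  exact gr_add (diffAt (hΩ.sdiff hS.isClosed) hτ.harm.1 hx)
    (diffAt (hΩ.sdiff hS.isClosed) hτ'.harm.1 hx)

theorem vs_gr_smul (c : ℝ) (v : VS hHSM hΩ hbd hsurf hS hSΩ) {x : E} (hx : x ∈ Ω \ S) :
    gr ((c • v : VS hHSM hΩ hbd hsurf hS hSΩ) : E → ℝ) x = c • gr (v : E → ℝ) x := by
  obtain ⟨-, τ, hτ⟩ := v.2
  exact gr_smul c (diffAt (hΩ.sdiff hS.isClosed) hτ.harm.1 hx)

theorem vs_F2 (v : VS hHSM hΩ hbd hsurf hS hSΩ) : MemLp (gr (v : E → ℝ)) 2 (volume.restrict Ω) := by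
  obtain ⟨-, τ, hτ⟩ := v.2
  exact hτ.hs.F2

theorem vs_u2 (v : VS hHSM hΩ hbd hsurf hS hSΩ) : MemLp (v : E → ℝ) 2 (volume.restrict Ω) := by
  obtain ⟨-, τ, hτ⟩ := v.2
  exact hτ.hs.u2

/-- the energy form -/
noncomputable def Qf (D : Set E) (hDm : MeasurableSet D) (hD : D ⊆ Ω \ S) :
    LinearMap.BilinForm ℝ (VS hHSM hΩ hbd hsurf hS hSΩ) :=
  LinearMap.mk₂ ℝ (fun v w => ∫ x in D, ⟪gr (v : E → ℝ) x, gr (w : E → ℝ) x⟫)
    (by
      intro v v' w
      rw [← integral_add (inner_integrableOn (vs_F2 _ _ _ _ _ _ v) (vs_F2 _ _ _ _ _ _ w)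
        (hD.trans sdiff_subset)) (inner_integrableOn (vs_F2 _ _ _ _ _ _ v') (vs_F2 _ _ _ _ _ _ w)
        (hD.trans sdiff_subset))]
      refine setIntegral_congr_fun hDm fun x hx => ?_
      simp only [vs_gr_add _ _ _ _ _ _ v v' (hD hx), inner_add_left])
    (by
      intro c v w
      rw [smul_eq_mul, ← integral_const_mul]
      refine setIntegral_congr_fun hDm fun x hx => ?_
      simp only [vs_gr_smul _ _ _ _ _ _ c v (hD hx), inner_smul_left]
      simp)
    (by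
      intro v w w'
      rw [← integral_add (inner_integrableOn (vs_F2 _ _ _ _ _ _ v) (vs_F2 _ _ _ _ _ _ w)
        (hD.trans sdiff_subset)) (inner_integrableOn (vs_F2 _ _ _ _ _ _ v) (vs_F2 _ _ _ _ _ _ w')
        (hD.trans sdiff_subset))]
      refine setIntegral_congr_fun hDm fun x hx => ?_
      simp only [vs_gr_add _ _ _ _ _ _ w w' (hD hx), inner_add_right])
    (by
      intro c v w
      rw [smul_eq_mul, ← integral_const_mul]
      refine setIntegral_congr_fun hDm fun x hx => ?_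
      simp only [vs_gr_smul _ _ _ _ _ _ c w (hD hx), inner_smul_right])

theorem Qf_apply (D : Set E) (hDm : MeasurableSet D) (hD : D ⊆ Ω \ S)
    (v w : VS hHSM hΩ hbd hsurf hS hSΩ) : Qf hHSM hΩ hbd hsurf hS hSΩ D hDm hD v w =
      ∫ x in D, ⟪gr (v : E → ℝ) x, gr (w : E → ℝ) x⟫ := rfl

theorem Qf_self (D : Set E) (hDm : MeasurableSet D) (hD : D ⊆ Ω \ S)
    (v : VS hHSM hΩ hbd hsurf hS hSΩ) : Qf hHSM hΩ hbd hsurf hS hSΩ D hDm hD v v =
      ∫ x in D, ‖gr (v : E → ℝ) x‖ ^ 2 := by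
  rw [Qf_apply]
  refine setIntegral_congr_fun hDm fun x _ => ?_
  simp only [real_inner_self_eq_norm_sq]

/-- averages -/
noncomputable def Af {m : ℕ} (B : Fin m → Set E) (hB : ∀ j, B j ⊆ Ω) :
    VS hHSM hΩ hbd hsurf hS hSΩ →ₗ[ℝ] (Fin m → ℝ) where
  toFun := fun v j => ∫ x in B j, (v : E → ℝ) x
  map_add' := by
    intro v w
    funext j
    have hi : ∀ v : VS hHSM hΩ hbd hsurf hS hSΩ, IntegrableOn (v : E → ℝ) (B j) := by
      intro v
      have : IsFiniteMeasure (volume.restrict Ω) := ⟨by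
        rw [Measure.restrict_apply_univ]; exact hbd.measure_lt_top⟩
      have h1 : Integrable (v : E → ℝ) (volume.restrict Ω) :=
        (vs_u2 _ _ _ _ _ _ v).integrable (by norm_num)
      exact IntegrableOn.mono_set h1 (hB j)
    exact integral_add (hi v) (hi w)
  map_smul' := by
    intro c v
    funext j
    exact integral_const_mul c _

/-- the functionals -/
noncomputable def lf {n : ℕ} (x nv : Fin (n + 1) → E) (hx : ∀ r, x r ∈ Ω \ S) (c : Fin (n + 1) → ℝ) :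
    VS hHSM hΩ hbd hsurf hS hSΩ →ₗ[ℝ] ℝ where
  toFun := fun v => ∑ r, c r * ⟪gr (v : E → ℝ) (x r), nv r⟫
  map_add' := by
    intro v w
    rw [← Finset.sum_add_distrib]
    refine Finset.sum_congr rfl fun r _ => ?_
    rw [vs_gr_add _ _ _ _ _ _ v w (hx r), inner_add_left]
    ring
  map_smul' := by
    intro a v
    rw [RingHom.id_apply, smul_eq_mul, Finset.mul_sum]
    refine Finset.sum_congr rfl fun r _ => ?_
    rw [vs_gr_smul _ _ _ _ _ _ a v (hx r), inner_smul_left]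
    simp
    ring

theorem lf_apply {n : ℕ} (x nv : Fin (n + 1) → E) (hx : ∀ r, x r ∈ Ω \ S) (c : Fin (n + 1) → ℝ)
    (v : VS hHSM hΩ hbd hsurf hS hSΩ) : lf hHSM hΩ hbd hsurf hS hSΩ x nv hx c v =
      ∑ r, c r * ⟪gr (v : E → ℝ) (x r), nv r⟫ := rfl

end

theorem ball_subset_of_infDist {Ω : Set E} (hΩ : IsOpen Ω) {x : E} (hx : x ∈ Ω) {s : ℝ} (hs : 0 < s)
    (h : s ≤ infDist x (frontier Ω)) : ball x s ⊆ Ω := by
  refine (convex_ball x s).isPreconnected.subset_of_closure_inter_subset hΩ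
    ⟨x, mem_ball_self hs, hx⟩ ?_
  rintro y ⟨hy, hy2⟩
  by_contra hyΩ
  have h1 : y ∈ frontier Ω := by
    rw [frontier, hΩ.interior_eq]
    exact ⟨hy, hyΩ⟩
  have h2 := infDist_le_dist_of_mem (x := x) h1
  rw [mem_ball, dist_comm] at hy2
  linarith

theorem rel (hHSM : T_HSM) (hCTR : T_CTR) (hGRM : T_GRM) (hCAC : T_CAC) (hMVG : T_MVG) : T_REL := by
  intro Ω hD
  obtain ⟨C1, hC1, hcac⟩ := hCAC
  obtain ⟨m, r0, hr0, hctr⟩ := hCTR Ω C1 hD hC1
  set p : ℕ := 2 * m + 1 with hp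
  set n : ℕ := p + 2 with hn
  have hp1 : (1:ℝ) ≤ p := by
    have : 1 ≤ p := by omega
    exact_mod_cast this
  have hn1 : (0:ℝ) < (n:ℝ) + 1 := by positivity
  refine ⟨n, 128 * (n + 1) * p, r0 / 2, by omega, by positivity, by positivity, ?_⟩
  intro σ ν S ρ s hsurf hS hSΩ hρ hρs hSd hs hsρ x nv hx hxs hnv
  have hΩ := hD.op
  have hO : IsOpen (Ω \ S) := hΩ.sdiff hS.isClosed
  have hd0 : ∀ y ∈ S, 2 * ρ - 2 * s ≤ dist y (x 0) := by
    intro y hy
    have h1 := hSd y hy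
    have h2 : infDist y (frontier Ω) ≤ infDist (x 0) (frontier Ω) + dist y (x 0) :=
      infDist_le_infDist_add_dist
    have h3 := (hx 0).2.2
    linarith
  obtain ⟨k, hk1, hk2⟩ := exists_nat_pow_near (x := ρ / (2 * s)) (y := 4) (by
    rw [one_le_div (by positivity)]; linarith) (by norm_num)
  rw [le_div_iff₀ (by positivity)] at hk1
  rw [div_lt_iff₀ (by positivity)] at hk2
  have h4pos : ∀ i : ℕ, (0:ℝ) < 4 ^ i := fun i => by positivity
  have hR0 : ∀ i : ℕ, 0 < ρ / 4 ^ i := fun i => by positivity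
  have hRle : ∀ i : ℕ, ρ / 4 ^ i ≤ ρ := fun i =>
    div_le_self hρ.le (one_le_pow₀ (by norm_num))
  have hDsub : ∀ i : ℕ, Ω ∩ ball (x 0) (ρ / 4 ^ i) ⊆ Ω \ S := by
    rintro i y ⟨hy, hy2⟩
    refine ⟨hy, fun hyS => ?_⟩
    have h1 := hd0 y hyS
    have h2 := hRle i
    rw [mem_ball] at hy2
    linarith
  have hDm : ∀ i : ℕ, MeasurableSet (Ω ∩ ball (x 0) (ρ / 4 ^ i)) := fun i =>
    hΩ.measurableSet.inter isOpen_ball.measurableSet
  have hctr' : ∀ i : ℕ, _ := fun i => hctr (x 0) (ρ / 4 ^ i) (by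
    have := (hx 0).2.2
    linarith) (hR0 i) (by have := hRle i; linarith)
  choose B hB hBv using hctr'
  obtain ⟨c, hc, hcnv⟩ := exists_orth n p (by omega) nv
  have hxO : ∀ r, x r ∈ Ω \ S := by
    intro r
    refine ⟨(hx r).1, fun hr => ?_⟩
    have h1 := hSd _ hr
    have h2 := (hx r).2.2
    linarith
  set V := VS hHSM hΩ hD.bdd hsurf hS hSΩ with hV
  set Q : ℕ → LinearMap.BilinForm ℝ V := fun i => if i ≤ k then
    Qf hHSM hΩ hD.bdd hsurf hS hSΩ (Ω ∩ ball (x 0) (ρ / 4 ^ i)) (hDm i) (hDsub i) else 0 with hQ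
  set A : ℕ → V →ₗ[ℝ] (Fin m → ℝ) := fun i =>
    Af hHSM hΩ hD.bdd hsurf hS hSΩ (B i) (fun j => (hB i j).2.trans inter_subset_left) with hA
  have hQ1 : ∀ i, i ≤ k → ∀ v, Q i v v = ∫ y in Ω ∩ ball (x 0) (ρ / 4 ^ i), ‖gr (v : E → ℝ) y‖ ^ 2 := by
    intro i hi v
    rw [hQ]
    simp only [if_pos hi]
    exact Qf_self _ _ _ _ _ _ _ _ _ v
  have hQ2 : ∀ i, ¬ i ≤ k → ∀ v w, Q i v w = 0 := by
    intro i hi v w
    rw [hQ]
    simp only [if_neg hi]
    rfl
  have hQnn : ∀ i v, 0 ≤ Q i v v := by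
    intro i v
    by_cases hi : i ≤ k
    · rw [hQ1 i hi]
      exact integral_nonneg fun y => sq_nonneg _
    · rw [hQ2 i hi]
  -- the radius `ρ / 4 ^ k` is at least `2 s`
  have hRk : 2 * s ≤ ρ / 4 ^ k := by
    rw [le_div_iff₀ (h4pos k)]
    linarith
  obtain ⟨b, hb1, hb2⟩ := hGRM p m k V Q A (fun q => lf hHSM hΩ hD.bdd hsurf hS hSΩ x nv hxO (c q))
    (Real.sqrt ((n + 1) * s⁻¹ ^ 3)) (1 / 256) (by omega) (by omega) (Real.sqrt_nonneg _)
    (by norm_num) (by norm_num) hQnn (by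
      intro i v w
      by_cases hi : i ≤ k
      · rw [hQ]
        simp only [if_pos hi]
        refine integral_congr_ae (ae_of_all _ fun y => ?_)
        exact real_inner_comm _ _
      · rw [hQ2 i hi, hQ2 i hi]) (by
      intro i v
      by_cases hi : i + 1 ≤ k
      · rw [hQ1 _ hi, hQ1 i (by omega)]
        refine setIntegral_mono_set (mem_integrableOn_sq (vs_F2 _ _ _ _ _ _ v) inter_subset_left)
          (ae_of_all _ fun y => sq_nonneg _) (Eventually.of_forall ?_)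
        refine inter_subset_inter_right _ (ball_subset_ball ?_)
        rw [pow_succ]
        exact div_le_div_of_nonneg_left hρ.le (h4pos i) (by linarith [h4pos i])
      · rw [hQ2 _ hi]
        exact hQnn i v) (by
      intro i v hAv
      by_cases hi : i + 1 ≤ k
      · rw [hQ1 _ hi, hQ1 i (by omega)]
        obtain ⟨-, τ, hτ⟩ := v.2
        have h1 := hBv i (v : E → ℝ) (hτ.harm.1.mono (hDsub i))
          (IntegrableOn.mono_set (show IntegrableOn (fun y => (v : E → ℝ) y ^ 2) Ω volume from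
            hτ.hs.u2.integrable_sq) inter_subset_left)
          (mem_integrableOn_sq hτ.hs.F2 inter_subset_left)
          (hcac Ω S σ ν (v : E → ℝ) τ (x 0) (ρ / 4 ^ i) hΩ hD.bdd hsurf hS hSΩ hτ (hR0 i)
            (fun y hy => by have h1 := hd0 y hy; have h2 := hRle i; linarith))
          (fun j => congrFun hAv j)
        have h2 : ρ / 4 ^ (i + 1) = ρ / 4 ^ i / 4 := by
          rw [pow_succ, div_div]
        rw [h2]
        exact h1
      · rw [hQ2 _ hi]
        exact mul_nonneg (by norm_num) (hQnn i v)) (by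
      intro q v
      rw [lf_apply, Real.sq_sqrt (by positivity), hQ1 k le_rfl]
      obtain ⟨-, τ, hτ⟩ := v.2
      have h1 := Finset.sum_mul_sq_le_sq_mul_sq Finset.univ (c q)
        (fun r => ⟪gr (v : E → ℝ) (x r), nv r⟫)
      have h2 : ∑ r, c q r ^ 2 = 1 := by
        have := hc.1 q
        rw [EuclideanSpace.norm_eq, Real.sqrt_eq_one] at this
        rw [← this]
        exact Finset.sum_congr rfl fun r _ => by rw [Real.norm_eq_abs, sq_abs]
      rw [h2, one_mul] at h1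
      refine h1.trans ?_
      have h3 : ∀ r ∈ (Finset.univ : Finset (Fin (n + 1))), ⟪gr (v : E → ℝ) (x r), nv r⟫ ^ 2 ≤
          s⁻¹ ^ 3 * ∫ y in Ω ∩ ball (x 0) (ρ / 4 ^ k), ‖gr (v : E → ℝ) y‖ ^ 2 := by
        intro r _
        have h4 : ball (x r) s ⊆ Ω := ball_subset_of_infDist hΩ (hx r).1 hs (hx r).2.1
        have h5 : ball (x r) s ⊆ Ω ∩ ball (x 0) (ρ / 4 ^ k) := by
          refine subset_inter h4 (ball_subset_ball' ?_)
          rw [dist_eq_norm]
          have := hxs r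
          linarith
        have h6 := hMVG (Ω \ S) (v : E → ℝ) (x r) s hτ.harm hs (h5.trans (hDsub k))
          (mem_integrableOn_sq hτ.hs.F2 h4)
        have h7 : ⟪gr (v : E → ℝ) (x r), nv r⟫ ^ 2 ≤ ‖gr (v : E → ℝ) (x r)‖ ^ 2 := by
          have h8 := abs_real_inner_le_norm (gr (v : E → ℝ) (x r)) (nv r)
          rw [hnv r, mul_one] at h8
          rw [← sq_abs]
          exact pow_le_pow_left₀ (abs_nonneg _) h8 2
        refine (h7.trans h6).trans (mul_le_mul_of_nonneg_left ?_ (by positivity))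
        exact setIntegral_mono_set (mem_integrableOn_sq hτ.hs.F2 inter_subset_left)
          (ae_of_all _ fun y => sq_nonneg _) (Eventually.of_forall h5)
      refine (Finset.sum_le_card_nsmul _ _ _ h3).trans (le_of_eq ?_)
      rw [Finset.card_univ, Fintype.card_fin, nsmul_eq_mul]
      push_cast
      ring)
  -- normalisation
  set a' : Fin (n + 1) → ℝ := fun r => ∑ q, b q * c q r with ha'
  have ha'1 : ∑ r, a' r ^ 2 = 1 := by rw [ha', comb_norm hc b, hb1]
  obtain ⟨r1, hr1⟩ := Finite.exists_max (fun r => |a' r|)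
  have hM : 1 ≤ (n + 1) * |a' r1| ^ 2 := by
    have hM1 : ∑ r, a' r ^ 2 ≤ (n + 1) * |a' r1| ^ 2 := by
      refine (Finset.sum_le_card_nsmul _ _ (|a' r1| ^ 2) fun r _ => ?_).trans (le_of_eq ?_)
      · rw [← sq_abs]
        exact pow_le_pow_left₀ (abs_nonneg _) (hr1 r) 2
      · rw [Finset.card_univ, Fintype.card_fin, nsmul_eq_mul]
        push_cast
        ring
    rwa [ha'1] at hM1
  have hM0 : 0 < |a' r1| := by
    rw [abs_pos]
    intro h0
    rw [h0] at hM
    simp at hM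
    linarith
  refine ⟨fun r => a' r / |a' r1|, fun r => ?_, ⟨r1, ?_⟩, ?_, ?_⟩
  · rw [abs_div, abs_abs, div_le_one hM0]
    exact hr1 r
  · rw [abs_div, abs_abs, div_self hM0.ne']
  · have h1 : ∀ r, (a' r / |a' r1|) • nv r = (|a' r1|)⁻¹ • ∑ q, b q • (c q r • nv r) := by
      intro r
      rw [ha']
      simp only [smul_smul, Finset.sum_smul, Finset.smul_sum, div_eq_inv_mul, Finset.mul_sum]
    simp only [h1]
    rw [← Finset.smul_sum, Finset.sum_comm]
    simp only [← Finset.smul_sum, hcnv, smul_zero, Finset.sum_const_zero]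
  · intro v τ hτ
    have hv' : Sᶜ.indicator v ∈ V := ⟨fun y hy => indicator_of_notMem (by simpa using hy) v,
      τ, zn_mod hΩ hS hτ⟩
    have hgr : ∀ y ∈ Ω \ S, gr (Sᶜ.indicator v) y = gr v y := fun y hy =>
      gr_congr hO (fun z hz => indicator_of_mem (by exact hz.2) v) hy
    have h1 := hb2 ⟨_, hv'⟩
    rw [hQ1 0 (Nat.zero_le k), Real.sq_sqrt (by positivity)] at h1
    have h2 : ∑ q, b q * lf hHSM hΩ hD.bdd hsurf hS hSΩ x nv hxO (c q) ⟨_, hv'⟩ =
        ∑ r, a' r * ⟪gr v (x r), nv r⟫ := by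
      simp only [lf_apply]
      rw [ha']
      simp only [Finset.mul_sum, Finset.sum_mul]
      rw [Finset.sum_comm]
      refine Finset.sum_congr rfl fun r _ => Finset.sum_congr rfl fun q _ => ?_
      rw [hgr (x r) (hxO r)]
      ring
    rw [h2] at h1
    have h3 : ∫ y in Ω ∩ ball (x 0) (ρ / 4 ^ 0), ‖gr (Sᶜ.indicator v) y‖ ^ 2 ≤
        ∫ y in Ω, ‖gr v y‖ ^ 2 := by
      have h4 : ∫ y in Ω ∩ ball (x 0) (ρ / 4 ^ 0), ‖gr (Sᶜ.indicator v) y‖ ^ 2 =
          ∫ y in Ω ∩ ball (x 0) (ρ / 4 ^ 0), ‖gr v y‖ ^ 2 := by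
        refine setIntegral_congr_fun (hDm 0) fun y hy => ?_
        simp only [hgr y (hDsub 0 hy)]
      rw [h4]
      exact setIntegral_mono_set (mem_integrableOn_sq hτ.hs.F2 subset_rfl)
        (ae_of_all _ fun y => sq_nonneg _) (Eventually.of_forall inter_subset_left)
    set I : ℝ := ∫ y in Ω, ‖gr v y‖ ^ 2 with hI
    have hI0 : 0 ≤ I := integral_nonneg fun y => sq_nonneg _
    -- the power of the contraction constant
    have h5 : ((1:ℝ) / 256) ^ k ≤ (8 * s / ρ) ^ 4 := by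
      have h6 : ((1:ℝ) / 256) ^ k = ((1:ℝ) / 4 ^ k) ^ 4 := by
        rw [one_div, one_div, inv_pow, inv_pow, ← pow_mul, mul_comm k 4, pow_mul]
        norm_num
      rw [h6]
      refine pow_le_pow_left₀ (by positivity) ?_ 4
      rw [div_le_div_iff₀ (h4pos k) hρ, one_mul]
      rw [pow_succ] at hk2
      linarith
    have h7 : (∑ r, a' r * ⟪gr v (x r), nv r⟫) ^ 2 ≤ 128 ^ 2 * p * (n + 1) * s / ρ ^ 4 * I := by
      refine h1.trans ?_
      have h8 : 4 * (p:ℝ) * ((n + 1) * s⁻¹ ^ 3) * (1 / 256) ^ k ≤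
          4 * (p:ℝ) * ((n + 1) * s⁻¹ ^ 3) * (8 * s / ρ) ^ 4 :=
        mul_le_mul_of_nonneg_left h5 (by positivity)
      have h9 : 4 * (p:ℝ) * ((n + 1) * s⁻¹ ^ 3) * (8 * s / ρ) ^ 4 =
          128 ^ 2 * p * (n + 1) * s / ρ ^ 4 := by
        field_simp
        ring
      rw [h9] at h8
      exact mul_le_mul h8 h3 (integral_nonneg fun y => sq_nonneg _) (by positivity)
    have h10 : ∑ r, a' r / |a' r1| * ⟪gr v (x r), nv r⟫ =
        (∑ r, a' r * ⟪gr v (x r), nv r⟫) / |a' r1| := by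
      rw [Finset.sum_div]
      exact Finset.sum_congr rfl fun r _ => by ring
    rw [h10]
    have h11 : 128 * (n + 1) * p * Real.sqrt s / ρ ^ 2 * Real.sqrt I =
        Real.sqrt ((128 * (n + 1) * p) ^ 2 * s / ρ ^ 4 * I) := by
      rw [Real.sqrt_mul (by positivity), Real.sqrt_div (by positivity),
        Real.sqrt_mul (by positivity), Real.sqrt_sq (by positivity)]
      congr 2
      rw [show ρ ^ 4 = (ρ ^ 2) ^ 2 by ring, Real.sqrt_sq (by positivity)]
    rw [h11]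
    refine Real.abs_le_sqrt ?_
    rw [div_pow, div_le_iff₀ (by positivity), sq_abs]
    have h12 : 128 ^ 2 * p * (n + 1) * s / ρ ^ 4 * I ≤
        (128 * (n + 1) * p) ^ 2 * s / ρ ^ 4 * I * a' r1 ^ 2 := by
      have h13 : (128 * (n + 1) * (p:ℝ)) ^ 2 * s / ρ ^ 4 * I * a' r1 ^ 2 =
          (128 ^ 2 * p * (n + 1) * s / ρ ^ 4 * I) * (p * ((n + 1) * |a' r1| ^ 2)) := by
        rw [sq_abs]
        ring
      rw [h13]
      refine le_mul_of_one_le_right (by positivity) ?_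
      calc (1:ℝ) = 1 * 1 := by norm_num
        _ ≤ _ := mul_le_mul hp1 hM zero_le_one (by positivity)
    exact h7.trans h12

end Pool.Agent.H39.IC.REL
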