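import Mathlib
import Pool.Agent.H94.IC.Targets3

open MeasureTheory Set Filter Topology Metric
open scoped ENNReal NNReal ContDiff RealInnerProductSpace

namespace Pool.Agent.H39.IC

open Pool.Agent.H94.IC

/-- separation of closed sets not meeting a common component -/
theorem exists_clopen_sep {K : Type} [TopologicalSpace K] [CompactSpace K] [T2Space K]
    (A B : Set K) (hA : IsClosed A) (hB : IsClosed B)
    (h : ∀ a ∈ A, ∀ b ∈ B, b ∉ connectedComponent a) :
    ∃ C : Set K, IsClopen C ∧ A ⊆ C ∧ Disjoint C B := by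
  have h1 : ∀ a : K, ∃ C : Set K, a ∈ A → (IsClopen C ∧ a ∈ C ∧ Disjoint C B) := by
    intro a
    by_cases ha : a ∈ A
    · have h2 : B ∩ ⋂ Z : {Z : Set K // IsClopen Z ∧ a ∈ Z}, (Z : Set K) = ∅ := by
        rw [← connectedComponent_eq_iInter_isClopen]
        ext b
        simp only [mem_inter_iff, mem_empty_iff_false, iff_false, not_and]
        exact h a ha b
      obtain ⟨u, hu⟩ := hB.isCompact.elim_finite_subfamily_closed
        (fun Z : {Z : Set K // IsClopen Z ∧ a ∈ Z} => (Z : Set K)) (fun Z => Z.2.1.1) h2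
      refine ⟨⋂ Z ∈ u, (Z : Set K), fun _ => ⟨?_, ?_, ?_⟩⟩
      · exact isClopen_biInter_finset fun Z _ => Z.2.1
      · simp only [mem_iInter]
        exact fun Z _ => Z.2.2
      · rw [Set.disjoint_iff_inter_eq_empty, inter_comm]
        exact hu
    · exact ⟨univ, fun h => absurd h ha⟩
  choose C hC using h1
  obtain ⟨t, ht, hcov⟩ := hA.isCompact.elim_nhds_subcover' (fun a _ => C a)
    (fun a ha => (hC a ha).1.2.mem_nhds (hC a ha).2.1) |>.imp fun t ht => (⟨trivial, ht⟩ : True ∧ _)
  refine ⟨⋃ a ∈ t, C a, ?_, hcov, ?_⟩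
  · exact isClopen_biUnion_finset fun a _ => (hC a a.2).1
  · rw [Set.disjoint_iUnion₂_left]
    exact fun a _ => (hC a a.2).2.2

theorem yin : T_YIN := by
  intro Ω S Y n s hΩ hbd hS hSΩ hn hs hSd hY hYcl hconf
  set d : E → ℝ := fun x => infDist x (frontier Ω) with hd
  have hdc : Continuous d := continuous_infDist_pt _
  set K : Set E := {x | x ∈ Y ∧ s ≤ d x ∧ d x ≤ 2 * s} with hK
  have hinΩ : ∀ x ∈ closure Ω, 0 < d x → x ∈ Ω := by
    intro x hx hdx
    by_contra hxΩ
    have : x ∈ frontier Ω := by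
      rw [frontier, hΩ.interior_eq]
      exact ⟨hx, hxΩ⟩
    have h0 := infDist_zero_of_mem this
    rw [hd] at hdx
    simp only [h0, lt_self_iff_false] at hdx
  have hKcl : IsClosed K := by
    rw [← closure_subset_iff_isClosed]
    intro x hx
    have h1 : x ∈ closure Ω := closure_mono (fun y hy => (hY hy.1).1) hx
    have h2 : s ≤ d x := closure_minimal (fun y hy => hy.2.1)
      (isClosed_le continuous_const hdc) hx
    have h3 : d x ≤ 2 * s := closure_minimal (fun y hy => hy.2.2)
      (isClosed_le hdc continuous_const) hx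
    have h4 : x ∈ Ω := hinΩ x h1 (hs.trans_le h2)
    have h5 : x ∉ S := fun h => absurd (hSd x h) (not_lt.2 h3)
    refine ⟨?_, h2, h3⟩
    by_contra h6
    have h7 := hYcl x ⟨h4, h5⟩ h6
    have h8 := mem_closure_iff_frequently.1 (closure_mono (fun y (hy : y ∈ K) => hy.1) hx)
    exact h8 (by filter_upwards [h7] with y hy using hy)
  have hKcpt : IsCompact K :=
    Metric.isCompact_of_isClosed_isBounded hKcl (hbd.subset fun y hy => (hY hy.1).1)
  have : CompactSpace K := isCompact_iff_compactSpace.1 hKcpt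
  have hdK : Continuous (fun x : K => d x) := hdc.comp continuous_subtype_val
  obtain ⟨C, hC, hAC, hCB⟩ := exists_clopen_sep {x : K | d x = s} {x : K | d x = 2 * s}
    (isClosed_eq hdK continuous_const) (isClosed_eq hdK continuous_const) (by
      intro a ha b hb hab
      have hpre : IsPreconnected (connectedComponent a) := isPreconnected_connectedComponent
      have hf : ContinuousOn (fun x : K => ‖(x : E) - a‖) (connectedComponent a) :=
        ((continuous_subtype_val.sub continuous_const).norm).continuousOn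
      have hiv := hpre.intermediate_value mem_connectedComponent hab hf
      have hdist : s ≤ ‖(b : E) - a‖ := by
        have h1 : d b ≤ d a + dist (b : E) a := infDist_le_infDist_add_dist
        rw [mem_ofPred_eq] at ha hb
        rw [ha, hb, dist_eq_norm] at h1
        linarith
      have hn0 : (0:ℝ) < n := by exact_mod_cast hn
      have hx : ∀ r : Fin (n + 1), ∃ x : K, ‖(x : E) - a‖ = ((r : ℕ) : ℝ) * s / n := by
        intro r
        have hr : ((r : ℕ) : ℝ) ≤ n := by
          have := r.2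
          exact_mod_cast Nat.lt_succ_iff.1 this
        have hmem : ((r : ℕ) : ℝ) * s / n ∈ Icc ‖(a : E) - a‖ ‖(b : E) - a‖ := by
          constructor
          · rw [sub_self, norm_zero]
            positivity
          · refine le_trans ?_ hdist
            rw [div_le_iff₀ hn0, mul_comm s]
            exact mul_le_mul_of_nonneg_right hr hs.le
        obtain ⟨x, -, hx⟩ := hiv hmem
        exact ⟨x, hx⟩
      choose x hx using hx
      refine hconf (fun r => x r) (fun r => ⟨(x r).2.1, (x r).2.2.1, (x r).2.2.2⟩) fun r => ?_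
      have h0 : (x 0 : E) = a := by
        have := hx 0
        simp only [Fin.val_zero, Nat.cast_zero, zero_mul, zero_div, norm_eq_zero] at this
        exact sub_eq_zero.1 this
      rw [h0]
      exact hx r)
  have hcpt1 : IsCompact ((fun x : K => (x : E)) '' C) :=
    hC.1.isCompact.image continuous_subtype_val
  have hcpt2 : IsCompact ((fun x : K => (x : E)) '' Cᶜ) :=
    hC.compl.1.isCompact.image continuous_subtype_val
  set K1 : Set E := (fun x : K => (x : E)) '' C with hK1
  set K2 : Set E := (fun x : K => (x : E)) '' Cᶜ with hK2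
  have hK2K : K2 ⊆ K := by
    rintro _ ⟨x, -, rfl⟩
    exact x.2
  have hK12 : ∀ x ∈ K, x ∈ K1 ∨ x ∈ K2 := by
    intro x hx
    by_cases h : (⟨x, hx⟩ : K) ∈ C
    · exact Or.inl ⟨_, h, rfl⟩
    · exact Or.inr ⟨_, h, rfl⟩
  have hdisj : ∀ x ∈ K1, x ∉ K2 := by
    rintro _ ⟨x, hx, rfl⟩ ⟨y, hy, hxy⟩
    have : y = x := Subtype.ext hxy
    exact hy (this ▸ hx)
  have hA1 : ∀ x ∈ K2, d x ≠ s := by
    rintro _ ⟨x, hx, rfl⟩ h
    exact hx (hAC h)
  have hB1 : ∀ x ∈ K1, d x ≠ 2 * s := by
    rintro _ ⟨x, hx, rfl⟩ h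
    exact Set.disjoint_left.1 hCB hx h
  refine ⟨K2 ∪ {x | x ∈ Y ∧ 2 * s < d x}, ?_, fun x hx h => Or.inr ⟨hx, h⟩, ?_, ?_⟩
  · rintro x (hx | hx)
    · exact (hK2K hx).1
    · exact hx.1
  · rintro x (hx | hx)
    · exact (hK2K hx).2.1
    · exact le_of_lt (lt_trans (by linarith) hx.2)
  · intro p hp
    by_cases hpcl : p ∈ closure Ω
    swap
    · refine ⟨(closure Ω)ᶜ, isClosed_closure.isOpen_compl.mem_nhds hpcl, Or.inr ?_⟩
      ext x
      simp only [mem_inter_iff, mem_empty_iff_false, iff_false, not_and, mem_compl_iff, not_not]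
      rintro (hx | hx)
      · exact subset_closure (hY (hK2K hx).1).1
      · exact subset_closure (hY hx.1).1
    rcases lt_or_ge (d p) s with hps | hps
    · refine ⟨{x | d x < s}, (isOpen_lt hdc continuous_const).mem_nhds hps, Or.inr ?_⟩
      ext x
      simp only [mem_inter_iff, mem_empty_iff_false, iff_false, not_and, mem_ofPred_eq, not_lt]
      rintro (hx | hx)
      · exact (hK2K hx).2.1
      · exact le_of_lt (lt_trans (by linarith) hx.2)
    have hpΩ : p ∈ Ω := hinΩ p hpcl (hs.trans_le hps)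
    rcases lt_or_ge (2 * s) (d p) with hp2 | hp2
    · refine ⟨{x | 2 * s < d x}, (isOpen_lt continuous_const hdc).mem_nhds hp2, Or.inl ?_⟩
      ext x
      constructor
      · rintro ⟨hx | hx, hx2⟩
        · exact absurd (hK2K hx).2.2 (not_le.2 hx2)
        · exact ⟨hx.1, hx2⟩
      · rintro ⟨hx, hx2⟩
        exact ⟨Or.inr ⟨hx, hx2⟩, hx2⟩
    by_cases hpY : p ∈ Y
    swap
    · refine ⟨{x | x ∉ Y}, hYcl p ⟨hpΩ, hp⟩ hpY, Or.inr ?_⟩
      ext x
      simp only [mem_inter_iff, mem_empty_iff_false, iff_false, not_and, mem_ofPred_eq, not_not]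
      rintro (hx | hx)
      · exact (hK2K hx).1
      · exact hx.1
    rcases hK12 p ⟨hpY, hps, hp2⟩ with hpK | hpK
    · have hlt : d p < 2 * s := lt_of_le_of_ne hp2 (hB1 p hpK)
      refine ⟨{x | d x < 2 * s} ∩ K2ᶜ, Filter.inter_mem
        ((isOpen_lt hdc continuous_const).mem_nhds hlt)
        (hcpt2.isClosed.isOpen_compl.mem_nhds (hdisj p hpK)), Or.inr ?_⟩
      ext x
      simp only [mem_inter_iff, mem_empty_iff_false, iff_false]
      rintro ⟨hx | hx, hx2, hx3⟩
      · exact hx3 hx
      · exact lt_asymm hx2 hx.2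
    · have hlt : s < d p := lt_of_le_of_ne hps (Ne.symm (hA1 p hpK))
      have hpK1 : p ∉ K1 := fun h => hdisj p h hpK
      refine ⟨{x | s < d x} ∩ K1ᶜ, Filter.inter_mem
        ((isOpen_lt continuous_const hdc).mem_nhds hlt)
        (hcpt1.isClosed.isOpen_compl.mem_nhds hpK1), Or.inl ?_⟩
      ext x
      constructor
      · rintro ⟨hx | hx, hx2⟩
        · exact ⟨(hK2K hx).1, hx2⟩
        · exact ⟨hx.1, hx2⟩
      · rintro ⟨hx, hx2, hx3⟩
        refine ⟨?_, hx2, hx3⟩
        rcases lt_or_ge (2 * s) (d x) with h | h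
        · exact Or.inr ⟨hx, h⟩
        · rcases hK12 x ⟨hx, le_of_lt hx2, h⟩ with h1 | h1
          · exact absurd h1 hx3
          · exact Or.inl h1

end Pool.Agent.H39.IC
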